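import Pool.Agent.H89.F2.Sub

/-!
# Chang's theorem for every threshold, and Fourier coefficients of maps
-/

set_option autoImplicit false
set_option linter.unusedSectionVars false
set_option linter.unusedVariables false

namespace Pool.Agent.H89.F2

open Finset Pool.Agent.K4H60.BZ
open scoped Pointwise BigOperators ComplexConjugate

variable {G : Type*} [AddCommGroup G] [Fintype G] [DecidableEq G]

/-- Chang's theorem, every threshold -/
theorem chang_rho (T : Finset G) (hT : T.Nonempty) (ρ : ℝ) (hρ : 0 < ρ) (Λ : Finset (AddChar G ℂ))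
    (hΛ : AddDissociated (Λ : Set (AddChar G ℂ)))
    (hspec : ∀ ψ ∈ Λ, ρ * (T.card : ℝ) ≤ ‖∑ x ∈ T, ψ x‖) :
    (Λ.card : ℝ) ≤ 2 / ρ ^ 2 * Real.log (Fintype.card G / T.card) := by
  classical
  have hTpos : (0 : ℝ) < T.card := by exact_mod_cast hT.card_pos
  obtain ⟨c, hc⟩ : ∃ c : AddChar G ℂ → ℂ, c = fun ψ : AddChar G ℂ =>
    conj (∑ x ∈ T, ψ x) / ((‖∑ x ∈ T, ψ x‖ : ℝ) : ℂ) := ⟨_, rfl⟩
  have hcn : ∀ ψ ∈ Λ, ‖c ψ‖ ≤ 1 := by
    intro ψ hψ
    rw [hc]
    simp only [norm_div, RCLike.norm_conj, Complex.norm_real, norm_norm]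
    exact div_self_le_one _
  have hcs : ∀ ψ ∈ Λ, ∑ x ∈ T, (c ψ * ψ x).re = ‖∑ x ∈ T, ψ x‖ := by
    intro ψ hψ
    rw [← Complex.re_sum, ← mul_sum, hc]
    simp only
    have hne : (‖∑ x ∈ T, ψ x‖ : ℂ) ≠ 0 := by
      have := hspec ψ hψ
      have h2 : 0 < ‖∑ x ∈ T, ψ x‖ := lt_of_lt_of_le (by positivity) this
      exact_mod_cast h2.ne'
    have e1 : conj (∑ x ∈ T, ψ x) / ‖∑ x ∈ T, ψ x‖ * ∑ x ∈ T, ψ x = (‖∑ x ∈ T, ψ x‖ : ℂ) := by
      rw [div_mul_eq_mul_div, mul_comm, Complex.mul_conj, div_eq_iff hne, Complex.normSq_eq_norm_sq]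
      push_cast
      ring
    rw [e1, Complex.ofReal_re]
  obtain ⟨u, hu⟩ : ∃ u : G → ℝ, u = fun x => ∑ ψ ∈ Λ, (c ψ * ψ x).re := ⟨_, rfl⟩
  have h1 : (Λ.card : ℝ) * (ρ * T.card) ≤ ∑ x ∈ T, u x := by
    rw [hu, sum_comm, ← nsmul_eq_mul, ← sum_const]
    apply sum_le_sum
    intro ψ hψ
    rw [hcs ψ hψ]
    exact hspec ψ hψ
  have h2 : Real.exp (∑ x ∈ T, (1 / T.card : ℝ) • (ρ * u x)) ≤
      ∑ x ∈ T, (1 / T.card : ℝ) • Real.exp (ρ * u x) := by
    apply convexOn_exp.map_sum_le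
    · intro i _
      positivity
    · rw [sum_const, nsmul_eq_mul]
      field_simp
    · intro i _
      trivial
  have h3 : ∑ x ∈ T, (1 / T.card : ℝ) • Real.exp (ρ * u x) ≤
      (1 / T.card : ℝ) * (Fintype.card G * Real.exp (ρ ^ 2 * Λ.card / 2)) := by
    simp only [smul_eq_mul]
    rw [← mul_sum]
    gcongr
    calc _ ≤ ∑ x : G, Real.exp (ρ * u x) :=
          sum_le_sum_of_subset_of_nonneg (subset_univ _) fun x _ _ => (Real.exp_pos _).le
      _ ≤ _ := by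
          rw [hu]
          exact rudin Λ hΛ c hcn ρ
  have h4 : ρ ^ 2 * (Λ.card : ℝ) ≤ ∑ x ∈ T, (1 / T.card : ℝ) • (ρ * u x) := by
    simp only [smul_eq_mul]
    rw [← mul_sum, ← mul_sum]
    calc ρ ^ 2 * (Λ.card : ℝ) = (1 / T.card : ℝ) * (ρ * ((Λ.card : ℝ) * (ρ * T.card))) := by
          field_simp
      _ ≤ _ := by gcongr
  have h5 : Real.exp (ρ ^ 2 * (Λ.card : ℝ)) ≤
      (Fintype.card G / T.card) * Real.exp (ρ ^ 2 * (Λ.card : ℝ) / 2) := by
    calc _ ≤ Real.exp (∑ x ∈ T, (1 / T.card : ℝ) • (ρ * u x)) := Real.exp_le_exp.2 h4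
      _ ≤ _ := h2.trans h3
      _ = _ := by ring
  have hGpos : (0 : ℝ) < Fintype.card G := by
    have : Nonempty G := ⟨0⟩
    exact_mod_cast Fintype.card_pos
  have h6 : Real.exp (ρ ^ 2 * (Λ.card : ℝ) / 2) ≤ Fintype.card G / T.card := by
    have e1 : Real.exp (ρ ^ 2 * (Λ.card : ℝ)) =
        Real.exp (ρ ^ 2 * (Λ.card : ℝ) / 2) * Real.exp (ρ ^ 2 * (Λ.card : ℝ) / 2) := by
      rw [← Real.exp_add]
      congr 1
      ring
    rw [e1] at h5
    exact le_of_mul_le_mul_right h5 (Real.exp_pos _)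
  have h7 : ρ ^ 2 * (Λ.card : ℝ) / 2 ≤ Real.log (Fintype.card G / T.card) := by
    rw [Real.le_log_iff_exp_le (by positivity)]
    exact h6
  rw [div_mul_eq_mul_div, le_div_iff₀ (by positivity)]
  linarith

theorem spec_span_rho (T : Finset G) (hT : T.Nonempty) (ρ : ℝ) (hρ : 0 < ρ) :
    ∃ Λ : Finset (AddChar G ℂ), (Λ.card : ℝ) ≤ 2 / ρ ^ 2 * Real.log (Fintype.card G / T.card) ∧
      ∀ ψ : AddChar G ℂ, ρ * (T.card : ℝ) ≤ ‖∑ x ∈ T, ψ x‖ → ∀ x : G, (∀ φ ∈ Λ, φ x = 1) → ψ x = 1 := by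
  classical
  have hlog : 0 ≤ 2 / ρ ^ 2 * Real.log (Fintype.card G / T.card) := by
    have hTpos : (0 : ℝ) < T.card := by exact_mod_cast hT.card_pos
    have : (1 : ℝ) ≤ Fintype.card G / T.card := by
      rw [one_le_div hTpos]
      exact_mod_cast card_le_univ T
    have := Real.log_nonneg this
    positivity
  obtain ⟨s', hs', hcard, hsub⟩ := Finset.exists_subset_addSpan_card_le_of_forall_addDissociated
    (s := univ.filter fun ψ : AddChar G ℂ => ρ * (T.card : ℝ) ≤ ‖∑ x ∈ T, ψ x‖)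
    (d := ⌊2 / ρ ^ 2 * Real.log (Fintype.card G / T.card)⌋₊) (by
      intro s' hs' hdis
      apply Nat.le_floor
      apply chang_rho T hT ρ hρ s' hdis
      intro ψ hψ
      exact (mem_filter.1 (hs' hψ)).2)
  refine ⟨s', ?_, ?_⟩
  · exact (Nat.cast_le.2 hcard).trans (Nat.floor_le hlog)
  · intro ψ hψ x hx
    have := hsub (mem_filter.2 ⟨mem_univ _, hψ⟩)
    rw [mem_addSpan] at this
    obtain ⟨ε, hε, he⟩ := this
    have h1 : ‖ψ x - 1‖ ≤ 0 := by
      rw [← he]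
      refine (norm_sum_sub_one _ _ _).trans ?_
      apply le_of_eq
      apply Finset.sum_eq_zero
      intro φ hφ
      have h2 := norm_zsmul_sub_one φ x (ε φ)
      rw [hx φ hφ, sub_self, norm_zero, mul_zero] at h2
      exact le_antisymm h2 (norm_nonneg _)
    have h2 := norm_le_zero_iff.1 h1
    exact sub_eq_zero.1 h2

/-- the sum of the squares of the Fourier coefficients of a map -/
theorem pars {ι : Type*} (P : Finset ι) (s : ι → G) :
    ∑ ψ : AddChar G ℂ, ‖∑ i ∈ P, ψ (s i)‖ ^ 2 =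
      Fintype.card G * (((P ×ˢ P).filter fun q => s q.1 = s q.2).card : ℝ) := by
  classical
  have h1 : ((∑ ψ : AddChar G ℂ, ‖∑ i ∈ P, ψ (s i)‖ ^ 2 : ℝ) : ℂ) =
      ((Fintype.card G * (((P ×ˢ P).filter fun q => s q.1 = s q.2).card : ℝ) : ℝ) : ℂ) := by
    push_cast
    have e1 : ∀ ψ : AddChar G ℂ, ((‖∑ i ∈ P, ψ (s i)‖ : ℝ) : ℂ) ^ 2 =
        ∑ q ∈ P ×ˢ P, ψ (s q.1 - s q.2) := by
      intro ψ
      have : ((‖∑ i ∈ P, ψ (s i)‖ : ℝ) : ℂ) ^ 2 = (∑ i ∈ P, ψ (s i)) * conj (∑ i ∈ P, ψ (s i)) := by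
        rw [Complex.mul_conj, Complex.normSq_eq_norm_sq]
        push_cast
        rfl
      rw [this, map_sum, sum_mul_sum, sum_product]
      apply sum_congr rfl
      intro a _
      apply sum_congr rfl
      intro b _
      rw [sub_eq_add_neg, AddChar.map_add_eq_mul, AddChar.map_neg_eq_conj]
    simp_rw [e1]
    rw [sum_comm]
    have e2 : ∀ q ∈ P ×ˢ P, ∑ ψ : AddChar G ℂ, ψ (s q.1 - s q.2) =
        if s q.1 = s q.2 then (Fintype.card G : ℂ) else 0 := by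
      intro q _
      rw [AddChar.sum_apply_eq_ite]
      split_ifs with h1 h2 h2
      · rfl
      · exact absurd (sub_eq_zero.1 h1) h2
      · exact absurd (sub_eq_zero.2 h2) h1
      · rfl
    rw [sum_congr rfl e2, ← sum_filter, sum_const, nsmul_eq_mul, mul_comm]
  exact_mod_cast h1

/-- Cauchy-Schwarz for a map -/
theorem coll {ι : Type*} (P : Finset ι) (s : ι → G) :
    (P.card : ℝ) ^ 2 ≤ ((P.image s).card : ℝ) * (((P ×ˢ P).filter fun q => s q.1 = s q.2).card : ℝ) := by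
  classical
  have h1 : (P.card : ℝ) = ∑ y ∈ P.image s, ((P.filter fun i => s i = y).card : ℝ) := by
    have := Finset.card_eq_sum_card_image s P
    exact_mod_cast this
  have h2 : (((P ×ˢ P).filter fun q => s q.1 = s q.2).card : ℝ) =
      ∑ y ∈ P.image s, ((P.filter fun i => s i = y).card : ℝ) ^ 2 := by
    have h3 : ((P ×ˢ P).filter fun q => s q.1 = s q.2).card =
        ∑ y ∈ P.image s, ((P.filter fun i => s i = y).card) ^ 2 := by
      rw [Finset.card_eq_sum_card_fiberwise (f := fun q : ι × ι => s q.1) (t := P.image s)]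
      · apply sum_congr rfl
        intro y _
        rw [sq, ← Finset.card_product]
        congr 1
        ext ⟨i, j⟩
        simp only [mem_filter, mem_product]
        constructor
        · rintro ⟨⟨⟨h1, h2⟩, h3⟩, h4⟩
          exact ⟨⟨h1, h4⟩, h2, h3 ▸ h4⟩
        · rintro ⟨⟨h1, h4⟩, h2, h5⟩
          exact ⟨⟨⟨h1, h2⟩, h4.trans h5.symm⟩, h4⟩
      · intro q hq
        rw [mem_coe, mem_filter, mem_product] at hq
        exact mem_image_of_mem s hq.1.1
    exact_mod_cast h3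
  rw [h2, h1]
  exact sq_sum_le_card_mul_sum_sq

end Pool.Agent.H89.F2
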