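import Pool.Agent.H89.F2.Cos

/-!
# Many solutions or slow growth: the Fourier form, and four sums
-/

set_option autoImplicit false
set_option linter.unusedSectionVars false
set_option linter.unusedVariables false

namespace Pool.Agent.H89.F2

open Finset
open scoped Pointwise BigOperators ComplexConjugate

section gen

variable {G : Type*} [AddCommGroup G] [Module (ZMod 2) G] [Fintype G] [DecidableEq G]

/-- the number of the solutions of `a + a' = b₁ + … + b_j` -/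
theorem hat_sol (A B : Finset G) (j : ℕ) :
    (Fintype.card G : ℝ) * ((((A ×ˢ A) ×ˢ Fintype.piFinset fun _ : Fin j => B).filter
      fun q => q.1.1 + q.1.2 = ∑ i, q.2 i).card : ℝ) ≤
      ∑ ψ : AddChar G ℂ, ‖∑ x ∈ A, ψ x‖ ^ 2 * ‖∑ x ∈ B, ψ x‖ ^ j := by
  classical
  obtain ⟨P, hP⟩ : ∃ P : Finset ((G × G) × (Fin j → G)), P = (A ×ˢ A) ×ˢ Fintype.piFinset fun _ : Fin j => B :=
    ⟨_, rfl⟩
  rw [← hP]
  have h1 : (((Fintype.card G : ℝ) * ((P.filter fun q => q.1.1 + q.1.2 = ∑ i, q.2 i).card : ℝ) : ℝ) : ℂ) =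
      ∑ ψ : AddChar G ℂ, (∑ x ∈ A, ψ x) ^ 2 * (∑ x ∈ B, ψ x) ^ j := by
    have e1 : ∀ ψ : AddChar G ℂ, (∑ x ∈ A, ψ x) ^ 2 * (∑ x ∈ B, ψ x) ^ j =
        ∑ q ∈ P, ψ (q.1.1 + q.1.2 + ∑ i, q.2 i) := by
      intro ψ
      rw [← char_sums B j ψ, hP, sum_product, sum_product, sq, sum_mul_sum, sum_mul]
      apply sum_congr rfl
      intro a _
      rw [sum_mul]
      apply sum_congr rfl
      intro a' _
      rw [mul_sum]
      apply sum_congr rfl
      intro b _
      rw [AddChar.map_add_eq_mul, AddChar.map_add_eq_mul]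
    simp_rw [e1]
    rw [sum_comm]
    have e2 : ∀ q ∈ P, ∑ ψ : AddChar G ℂ, ψ (q.1.1 + q.1.2 + ∑ i, q.2 i) =
        if q.1.1 + q.1.2 = ∑ i, q.2 i then (Fintype.card G : ℂ) else 0 := by
      intro q _
      rw [AddChar.sum_apply_eq_ite]
      split_ifs with h1 h2 h2
      · rfl
      · exfalso
        apply h2
        rw [eq_neg_of_add_eq_zero_left h1, neg_self2]
      · exfalso
        apply h1
        rw [h2, add_self2]
      · rfl
    rw [sum_congr rfl e2, ← sum_filter, sum_const, nsmul_eq_mul]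
    push_cast
    ring
  have h2 : (Fintype.card G : ℝ) * ((P.filter fun q => q.1.1 + q.1.2 = ∑ i, q.2 i).card : ℝ) =
      ‖(((Fintype.card G : ℝ) * ((P.filter fun q => q.1.1 + q.1.2 = ∑ i, q.2 i).card : ℝ) : ℝ) : ℂ)‖ := by
    rw [Complex.norm_real, Real.norm_of_nonneg (by positivity)]
  rw [h2, h1]
  refine (norm_sum_le _ _).trans (le_of_eq ?_)
  apply sum_congr rfl
  intro ψ _
  rw [norm_mul, norm_pow, norm_pow]

/-- slow growth -/
theorem hat_growth (A B : Finset G) (hA : A.Nonempty) (m : ℕ) (K : ℝ) (hK : 0 < K)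
    (h : ((((A ×ˢ Fintype.piFinset fun _ : Fin m => B).image fun p => p.1 + ∑ i, p.2 i).card : ℝ)) ≤
      K * A.card) :
    (Fintype.card G : ℝ) * (A.card * (B.card : ℝ) ^ (2 * m)) ≤
      K * ∑ ψ : AddChar G ℂ, ‖∑ x ∈ A, ψ x‖ ^ 2 * ‖∑ x ∈ B, ψ x‖ ^ (2 * m) := by
  classical
  obtain ⟨P, hP⟩ : ∃ P : Finset (G × (Fin m → G)), P = A ×ˢ Fintype.piFinset fun _ : Fin m => B := ⟨_, rfl⟩
  rw [← hP] at h
  have h1 := pars P (fun p => p.1 + ∑ i, p.2 i)
  have h2 := coll P (fun p => p.1 + ∑ i, p.2 i)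
  obtain ⟨E, hE⟩ : ∃ E : Finset ((G × (Fin m → G)) × (G × (Fin m → G))),
    E = (P ×ˢ P).filter fun q => q.1.1 + ∑ i, q.1.2 i = q.2.1 + ∑ i, q.2.2 i := ⟨_, rfl⟩
  rw [← hE] at h1 h2
  have ha : (0 : ℝ) < A.card := by exact_mod_cast hA.card_pos
  have hPc : (P.card : ℝ) = A.card * (B.card : ℝ) ^ m := by
    rw [hP, card_product, Fintype.card_piFinset]
    simp
  have h3 : ∑ ψ : AddChar G ℂ, ‖∑ x ∈ A, ψ x‖ ^ 2 * ‖∑ x ∈ B, ψ x‖ ^ (2 * m) = Fintype.card G * (E.card : ℝ) := by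
    rw [← h1]
    apply sum_congr rfl
    intro ψ _
    have e1 : ∑ i ∈ P, ψ (i.1 + ∑ j, i.2 j) = (∑ x ∈ A, ψ x) * (∑ x ∈ B, ψ x) ^ m := by
      rw [← char_sums B m ψ, hP, sum_product, sum_mul]
      apply sum_congr rfl
      intro a _
      rw [mul_sum]
      apply sum_congr rfl
      intro b _
      rw [AddChar.map_add_eq_mul]
    rw [e1, norm_mul, mul_pow, norm_pow, ← pow_mul, mul_comm m 2]
  rw [h3]
  have h4 : (A.card : ℝ) * (A.card * (B.card : ℝ) ^ (2 * m)) ≤ A.card * (K * E.card) := by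
    calc (A.card : ℝ) * (A.card * (B.card : ℝ) ^ (2 * m)) = (P.card : ℝ) ^ 2 := by
          rw [hPc, mul_pow, ← pow_mul, mul_comm m 2]
          ring
      _ ≤ _ := h2
      _ ≤ (K * A.card) * E.card := mul_le_mul_of_nonneg_right h (Nat.cast_nonneg _)
      _ = _ := by ring
  have h5 := le_of_mul_le_mul_left h4 ha
  calc (Fintype.card G : ℝ) * (A.card * (B.card : ℝ) ^ (2 * m)) ≤ Fintype.card G * (K * E.card) :=
        mul_le_mul_of_nonneg_left h5 (Nat.cast_nonneg _)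
    _ = _ := by ring

end gen

/-- **Subspaces in four sums, and almost all of a coset in two sums.** -/
theorem four_sums {G : Type} [AddCommGroup G] [Module (ZMod 2) G] [Fintype G] [DecidableEq G]
    (A B : Finset G) (hA : A.Nonempty) (hB : B.Nonempty) (j : ℕ) (hj : 1 ≤ j) (K : ℝ) (hK : 0 < K)
    (hF : (Fintype.card G : ℝ) * (A.card * (B.card : ℝ) ^ j) ≤
      K * ∑ ψ : AddChar G ℂ, ‖∑ x ∈ A, ψ x‖ ^ 2 * ‖∑ x ∈ B, ψ x‖ ^ j) :
    0 ≤ Real.log (2 * K) ∧ ∃ (U : Submodule (ZMod 2) G) (r : ℕ),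
      (r : ℝ) ≤ 2 * (2 * K) ^ ((2 : ℝ) / j) * Real.log (Fintype.card G / B.card) +
        10 ^ 40 * ((1 + Real.log (2 * K)) ^ 2 * Real.log (2 + Real.log (2 * K)) ^ 4) ∧
      Fintype.card G ≤ 2 ^ r * Nat.card U ∧
      (∀ u ∈ U, ∃ a ∈ A, ∃ b ∈ A, ∃ c ∈ A, ∃ d ∈ A, u = a + b + c + d) ∧
      ∃ t : G, (1 - 1 / 100) * (Nat.card U : ℝ) ≤ (Nat.card {u : U // t + u ∈ A + A} : ℝ) := by
  classical
  obtain ⟨Λ, hΛ, a₀, ha₀, hd⟩ := core A B hA hB j hj K hK hF
  obtain ⟨D, hD⟩ : ∃ D : Finset (ann Λ), D = univ.filter fun v : ann Λ => a₀ + (v : G) ∈ A := ⟨_, rfl⟩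
  have hVc : Fintype.card (ann Λ) = (univ.filter fun x : G => x ∈ ann Λ).card := Fintype.card_subtype _
  have hDc : D.card = (univ.filter fun x : G => x ∈ ann Λ ∧ a₀ + x ∈ A).card := by
    refine card_bij (fun (w : ann Λ) _ => (w : G)) ?_ ?_ ?_
    · intro w hw
      rw [hD, mem_filter] at hw
      rw [mem_filter]
      exact ⟨mem_univ _, w.2, hw.2⟩
    · intro w _ w' _ hww
      exact Subtype.ext hww
    · intro x hx
      rw [mem_filter] at hx
      refine ⟨⟨x, hx.2.1⟩, ?_, rfl⟩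
      rw [hD, mem_filter]
      exact ⟨mem_univ _, hx.2.2⟩
  rw [← hVc, ← hDc] at hd
  have hVpos : (0 : ℝ) < Fintype.card (ann Λ) := by
    have : Nonempty (ann Λ) := ⟨0⟩
    exact_mod_cast Fintype.card_pos
  have hDle : (D.card : ℝ) ≤ Fintype.card (ann Λ) := by exact_mod_cast card_le_univ D
  have h2K : 1 ≤ 2 * K := by
    have h1 : (Fintype.card (ann Λ) : ℝ) * 1 ≤ Fintype.card (ann Λ) * (2 * K) := by
      calc (Fintype.card (ann Λ) : ℝ) * 1 ≤ 2 * K * D.card := by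
            rw [mul_one]
            exact hd
        _ ≤ 2 * K * Fintype.card (ann Λ) := mul_le_mul_of_nonneg_left hDle (by positivity)
        _ = _ := by ring
    exact le_of_mul_le_mul_left h1 hVpos
  have hl0 : 0 ≤ Real.log (2 * K) := Real.log_nonneg h2K
  have hDne : D.Nonempty := by
    refine ⟨0, ?_⟩
    rw [hD, mem_filter]
    refine ⟨mem_univ _, ?_⟩
    show a₀ + ((0 : ann Λ) : G) ∈ A
    rw [ZeroMemClass.coe_zero, add_zero]
    exact ha₀
  refine ⟨hl0, ?_⟩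
  obtain ⟨U, r, hr, hU, h4, t, ht⟩ := dense D hDne (1 / 500) (by norm_num) (by norm_num) (Real.log (2 * K)) hl0
    (by rw [Real.exp_log (by positivity)]; exact hd)
  have hcU : Nat.card (U.map (ann Λ).subtype) = Nat.card U :=
    Nat.card_congr (Submodule.equivMapOfInjective (ann Λ).subtype (ann Λ).injective_subtype U).toEquiv.symm
  have hpos : 0 ≤ (1 + Real.log (2 * K)) ^ 2 * Real.log (2 + Real.log (2 * K)) ^ 4 := by
    have : 0 ≤ Real.log (2 + Real.log (2 * K)) := Real.log_nonneg (by linarith)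
    positivity
  refine ⟨U.map (ann Λ).subtype, Λ.card + r, ?_, ?_, ?_, (t : G), ?_⟩
  · have h5 : (10 : ℝ) ^ 18 / (1 / 500) ^ 8 ≤ 10 ^ 40 := by norm_num
    have h6 := mul_le_mul_of_nonneg_right h5 hpos
    push_cast
    linarith
  · rw [hcU]
    have h2 := card_ann Λ
    calc Fintype.card G ≤ Fintype.card (ann Λ) * 2 ^ Λ.card := by
          rw [hVc]
          convert h2
      _ ≤ (2 ^ r * Nat.card U) * 2 ^ Λ.card := Nat.mul_le_mul_right _ hU
      _ = _ := by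
          rw [pow_add]
          ring
  · intro u hu
    rw [Submodule.mem_map] at hu
    obtain ⟨v, hv, rfl⟩ := hu
    obtain ⟨a, ha, b, hb, c, hc', d, hd', habc⟩ := h4 v hv
    rw [hD, mem_filter] at ha hb hc' hd'
    refine ⟨a₀ + a, ha.2, a₀ + b, hb.2, a₀ + c, hc'.2, a₀ + d, hd'.2, ?_⟩
    have h2 : (v : G) = a + b + c + d := by
      have := congrArg (fun w : ann Λ => (w : G)) habc
      simpa using this
    have h3 : a₀ + a + (a₀ + b) + (a₀ + c) + (a₀ + d) = (a₀ + a₀) + (a₀ + a₀) + (a + b + c + d) := by abel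
    rw [h3, add_self2, zero_add, ← h2]
    rfl
  · rw [hcU]
    have h7 : (1 - 1 / 100 : ℝ) = 1 - 5 * (1 / 500) := by norm_num
    rw [h7]
    refine ht.trans ?_
    have h8 : Nat.card {v : U // t + v ∈ D + D} ≤
        Nat.card {u : U.map (ann Λ).subtype // (t : G) + u ∈ A + A} := by
      refine Nat.card_le_card_of_injective (fun v => ⟨⟨((v.1 : ann Λ) : G), ?_⟩, ?_⟩) ?_
      · exact Submodule.mem_map_of_mem v.1.2
      · obtain ⟨d₁, h9, d₂, h10, h11⟩ := mem_add.1 v.2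
        rw [hD, mem_filter] at h9 h10
        rw [mem_add]
        refine ⟨a₀ + d₁, h9.2, a₀ + d₂, h10.2, ?_⟩
        have h12 : ((d₁ : ann Λ) : G) + (d₂ : G) = (t : G) + ((v.1 : ann Λ) : G) := by
          have := congrArg (fun w : ann Λ => (w : G)) h11
          simpa using this
        show a₀ + (d₁ : G) + (a₀ + (d₂ : G)) = (t : G) + ((v.1 : ann Λ) : G)
        rw [← h12, add_add_add_comm, add_self2, zero_add]
      · intro v w hvw
        have h13 := congrArg (fun x : {u : U.map (ann Λ).subtype // (t : G) + u ∈ A + A} => ((x.1 : _) : G)) hvw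
        exact Subtype.ext (Subtype.ext (Subtype.ext h13))
    exact_mod_cast h8

end Pool.Agent.H89.F2
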