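import Pool.Agent.H89.F2.Incr

/-!
# Dense cosets from many near-periods
-/

set_option autoImplicit false
set_option linter.unusedSectionVars false
set_option linter.unusedVariables false

namespace Pool.Agent.H89.F2

open Finset
open scoped Pointwise BigOperators ComplexConjugate

section gen

variable {G : Type*} [AddCommGroup G] [Module (ZMod 2) G] [Fintype G] [DecidableEq G]

theorem map_sum_aux (ψ : AddChar G ℂ) (m : ℕ) (p : Fin m → G) : ψ (∑ j, p j) = ∏ j, ψ (p j) := by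
  induction m with
  | zero => simp
  | succ m ih => rw [Fin.sum_univ_castSucc, Fin.prod_univ_castSucc, AddChar.map_add_eq_mul, ih]

theorem char_sums (B : Finset G) (m : ℕ) (ψ : AddChar G ℂ) :
    ∑ b ∈ Fintype.piFinset (fun _ : Fin m => B), ψ (∑ j, b j) = (∑ b ∈ B, ψ b) ^ m := by
  have h : ∀ p : Fin m → G, ψ (∑ j, p j) = ∏ j, ψ (p j) := fun p => map_sum_aux ψ m p
  simp_rw [h]
  have h2 := Finset.prod_univ_sum (fun _ : Fin m => B) (fun (_ : Fin m) (b : G) => ψ b)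
  rw [← h2, prod_const, card_univ, Fintype.card_fin]

theorem norm_char_le (B : Finset G) (ψ : AddChar G ℂ) : ‖∑ x ∈ B, ψ x‖ ≤ B.card := by
  refine (norm_sum_le _ _).trans ?_
  simp_rw [AddChar.norm_apply]
  simp

open Classical in
/-- A coset on which `A` is dense. -/
theorem core (A B : Finset G) (hA : A.Nonempty) (hB : B.Nonempty) (j : ℕ) (hj : 1 ≤ j) (K : ℝ) (hK : 0 < K)
    (hF : (Fintype.card G : ℝ) * (A.card * (B.card : ℝ) ^ j) ≤
      K * ∑ ψ : AddChar G ℂ, ‖∑ x ∈ A, ψ x‖ ^ 2 * ‖∑ x ∈ B, ψ x‖ ^ j) :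
    ∃ Λ : Finset (AddChar G ℂ),
      (Λ.card : ℝ) ≤ 2 * (2 * K) ^ ((2 : ℝ) / j) * Real.log (Fintype.card G / B.card) ∧
      ∃ a ∈ A, ((univ.filter fun x : G => x ∈ ann Λ).card : ℝ) ≤
        2 * K * ((univ.filter fun x : G => x ∈ ann Λ ∧ a + x ∈ A).card : ℝ) := by
  classical
  have hj0 : (j : ℝ) ≠ 0 := by
    have : 0 < j := hj
    exact_mod_cast this.ne'
  have hN : (0 : ℝ) < Fintype.card G := by
    have : Nonempty G := ⟨0⟩
    exact_mod_cast Fintype.card_pos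
  have ha : (0 : ℝ) < A.card := by exact_mod_cast hA.card_pos
  have hb : (0 : ℝ) < B.card := by exact_mod_cast hB.card_pos
  obtain ⟨ρ, hρd⟩ : ∃ ρ : ℝ, ρ = (2 * K) ^ (-(1 / (j : ℝ))) := ⟨_, rfl⟩
  have hρ : 0 < ρ := by
    rw [hρd]
    positivity
  have hρj : ρ ^ j = 1 / (2 * K) := by
    rw [hρd, ← Real.rpow_natCast, ← Real.rpow_mul (by positivity)]
    rw [show -(1 / (j : ℝ)) * j = -1 by field_simp, Real.rpow_neg_one, one_div]
  have hρ2 : 2 / ρ ^ 2 = 2 * (2 * K) ^ ((2 : ℝ) / j) := by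
    rw [hρd, ← Real.rpow_natCast, ← Real.rpow_mul (by positivity), div_eq_mul_inv,
      ← Real.rpow_neg (by positivity)]
    congr 2
    push_cast
    ring
  obtain ⟨Λ, hΛ1, hΛ2⟩ := spec_span_rho B hB ρ hρ
  rw [hρ2] at hΛ1
  refine ⟨Λ, hΛ1, ?_⟩
  obtain ⟨V, hV⟩ : ∃ V : Finset G, V = univ.filter fun x : G => x ∈ ann Λ := ⟨_, rfl⟩
  have hVm : ∀ x, x ∈ V ↔ x ∈ ann Λ := by
    intro x
    rw [hV]
    simp
  have hv : (0 : ℝ) < V.card := by
    have : V.Nonempty := ⟨0, by rw [hVm]; exact (ann Λ).zero_mem⟩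
    exact_mod_cast this.card_pos
  obtain ⟨S, hS⟩ : ∃ S : Finset (AddChar G ℂ), S = univ.filter fun ψ => ρ * (B.card : ℝ) ≤ ‖∑ x ∈ B, ψ x‖ :=
    ⟨_, rfl⟩
  -- the large spectrum
  have h1 : (Fintype.card G : ℝ) * A.card ≤ 2 * K * ∑ ψ ∈ S, ‖∑ x ∈ A, ψ x‖ ^ 2 := by
    have e1 : ∑ ψ : AddChar G ℂ, ‖∑ x ∈ A, ψ x‖ ^ 2 * ‖∑ x ∈ B, ψ x‖ ^ j ≤
        (B.card : ℝ) ^ j * ∑ ψ ∈ S, ‖∑ x ∈ A, ψ x‖ ^ 2 +
          (1 / (2 * K)) * (B.card : ℝ) ^ j * (Fintype.card G * A.card) := by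
      rw [← sum_filter_add_sum_filter_not univ (fun ψ : AddChar G ℂ => ρ * (B.card : ℝ) ≤ ‖∑ x ∈ B, ψ x‖),
        ← hS]
      apply add_le_add
      · rw [mul_sum]
        apply sum_le_sum
        intro ψ _
        rw [mul_comm]
        gcongr
        exact norm_char_le B ψ
      · calc _ ≤ ∑ ψ ∈ univ.filter (fun ψ : AddChar G ℂ => ¬ ρ * (B.card : ℝ) ≤ ‖∑ x ∈ B, ψ x‖),
              (1 / (2 * K)) * (B.card : ℝ) ^ j * ‖∑ x ∈ A, ψ x‖ ^ 2 := by
              apply sum_le_sum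
              intro ψ hψ
              have h2 := (not_le.1 (mem_filter.1 hψ).2).le
              have h3 : ‖∑ x ∈ B, ψ x‖ ^ j ≤ (ρ * B.card) ^ j := pow_le_pow_left₀ (norm_nonneg _) h2 j
              rw [mul_pow, hρj] at h3
              rw [mul_comm]
              exact mul_le_mul_of_nonneg_right h3 (by positivity)
          _ ≤ ∑ ψ : AddChar G ℂ, (1 / (2 * K)) * (B.card : ℝ) ^ j * ‖∑ x ∈ A, ψ x‖ ^ 2 :=
              sum_le_sum_of_subset_of_nonneg (filter_subset _ _) fun ψ _ _ => by positivity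
          _ = _ := by rw [← mul_sum, pars_set]
    have e2 := hF.trans (mul_le_mul_of_nonneg_left e1 hK.le)
    have hbj : (0 : ℝ) < (B.card : ℝ) ^ j := pow_pos hb j
    have e3 : (B.card : ℝ) ^ j * (Fintype.card G * A.card) ≤
        (B.card : ℝ) ^ j * (2 * K * ∑ ψ ∈ S, ‖∑ x ∈ A, ψ x‖ ^ 2) := by
      have e4 : K * ((B.card : ℝ) ^ j * ∑ ψ ∈ S, ‖∑ x ∈ A, ψ x‖ ^ 2 +
          (1 / (2 * K)) * (B.card : ℝ) ^ j * (Fintype.card G * A.card)) =
          K * ((B.card : ℝ) ^ j * ∑ ψ ∈ S, ‖∑ x ∈ A, ψ x‖ ^ 2) +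
            (B.card : ℝ) ^ j * (Fintype.card G * A.card) / 2 := by
        field_simp
      rw [e4] at e2
      linarith
    exact le_of_mul_le_mul_left e3 hbj
  -- the coset
  obtain ⟨P, hP⟩ : ∃ P : Finset (G × G), P = A ×ˢ V := ⟨_, rfl⟩
  have h2 := pars P (fun p : G × G => p.1 + p.2)
  obtain ⟨E, hE⟩ : ∃ E : Finset ((G × G) × (G × G)),
    E = (P ×ˢ P).filter fun q => q.1.1 + q.1.2 = q.2.1 + q.2.2 := ⟨_, rfl⟩
  have h3 : (V.card : ℝ) ^ 2 * ∑ ψ ∈ S, ‖∑ x ∈ A, ψ x‖ ^ 2 ≤ Fintype.card G * (E.card : ℝ) := by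
    rw [hE, ← h2, mul_sum]
    calc _ ≤ ∑ ψ ∈ S, ‖∑ i ∈ P, ψ (i.1 + i.2)‖ ^ 2 := by
          apply sum_le_sum
          intro ψ hψ
          rw [hS, mem_filter] at hψ
          have e1 : ∑ i ∈ P, ψ (i.1 + i.2) = (∑ x ∈ A, ψ x) * V.card := by
            rw [hP, sum_product, sum_mul]
            apply sum_congr rfl
            intro a _
            rw [show (V.card : ℂ) = ∑ x ∈ V, (1 : ℂ) by simp, mul_sum]
            apply sum_congr rfl
            intro x hx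
            rw [AddChar.map_add_eq_mul, hΛ2 ψ hψ.2 x ((mem_ann Λ x).1 ((hVm x).1 hx))]
          rw [e1, norm_mul, mul_pow, mul_comm]
          simp
      _ ≤ _ := sum_le_sum_of_subset_of_nonneg (subset_univ _) fun ψ _ _ => by positivity
  have h4 : (V.card : ℝ) ^ 2 * A.card ≤ 2 * K * E.card := by
    have e1 : (Fintype.card G : ℝ) * ((V.card : ℝ) ^ 2 * A.card) ≤ Fintype.card G * (2 * K * E.card) := by
      calc (Fintype.card G : ℝ) * ((V.card : ℝ) ^ 2 * A.card) =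
          (V.card : ℝ) ^ 2 * (Fintype.card G * A.card) := by ring
        _ ≤ (V.card : ℝ) ^ 2 * (2 * K * ∑ ψ ∈ S, ‖∑ x ∈ A, ψ x‖ ^ 2) :=
            mul_le_mul_of_nonneg_left h1 (by positivity)
        _ = 2 * K * ((V.card : ℝ) ^ 2 * ∑ ψ ∈ S, ‖∑ x ∈ A, ψ x‖ ^ 2) := by ring
        _ ≤ 2 * K * (Fintype.card G * (E.card : ℝ)) := mul_le_mul_of_nonneg_left h3 (by positivity)
        _ = _ := by ring
    exact le_of_mul_le_mul_left e1 hN
  by_contra hcon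
  push Not at hcon
  have h5 : (E.card : ℝ) ≤ ∑ p ∈ P, ((univ.filter fun x : G => x ∈ ann Λ ∧ p.1 + x ∈ A).card : ℝ) := by
    have e1 : E.card ≤ ∑ p ∈ P, (univ.filter fun x : G => x ∈ ann Λ ∧ p.1 + x ∈ A).card := by
      rw [Finset.card_eq_sum_card_fiberwise (f := fun q : (G × G) × (G × G) => q.1) (t := P)]
      · apply sum_le_sum
        rintro ⟨a, x⟩ hp
        rw [hP, mem_product] at hp
        refine card_le_card_of_injOn (fun q => x + q.2.2) ?_ ?_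
        · rintro ⟨⟨a1, x1⟩, ⟨a2, x2⟩⟩ hq
          rw [mem_coe, mem_filter, hE, mem_filter, hP, mem_product, mem_product, mem_product] at hq
          obtain ⟨⟨⟨⟨h6, h7⟩, h8, h9⟩, h10⟩, h11⟩ := hq
          simp only [Prod.mk.injEq] at h11
          obtain ⟨rfl, rfl⟩ := h11
          simp only at h6 h7 h8 h9 h10
          rw [mem_coe, mem_filter]
          refine ⟨mem_univ _, (ann Λ).add_mem ((hVm _).1 h7) ((hVm _).1 h9), ?_⟩
          show a1 + (x1 + x2) ∈ A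
          rw [← add_assoc, h10, add_assoc, add_self2, add_zero]
          exact h8
        · rintro ⟨⟨a1, x1⟩, ⟨a2, x2⟩⟩ hq ⟨⟨a3, x3⟩, ⟨a4, x4⟩⟩ hq' hqq
          rw [mem_coe, mem_filter, hE, mem_filter] at hq hq'
          obtain ⟨⟨-, h10⟩, h11⟩ := hq
          obtain ⟨⟨-, h10'⟩, h11'⟩ := hq'
          simp only [Prod.mk.injEq] at h11 h11'
          obtain ⟨rfl, rfl⟩ := h11
          obtain ⟨rfl, rfl⟩ := h11'
          have h12 : x2 = x4 := add_left_cancel hqq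
          subst h12
          simp only at h10 h10'
          have h13 : a2 = a4 := add_right_cancel (h10.symm.trans h10')
          rw [h13]
      · intro q hq
        rw [mem_coe, hE, mem_filter, mem_product] at hq
        exact hq.1.1
    exact_mod_cast e1
  have h6 : 2 * K * (E.card : ℝ) < (V.card : ℝ) ^ 2 * A.card := by
    have hPne : P.Nonempty := by
      rw [hP]
      exact hA.product ⟨0, by rw [hVm]; exact (ann Λ).zero_mem⟩
    calc 2 * K * (E.card : ℝ) ≤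
        2 * K * ∑ p ∈ P, ((univ.filter fun x : G => x ∈ ann Λ ∧ p.1 + x ∈ A).card : ℝ) :=
          mul_le_mul_of_nonneg_left h5 (by positivity)
      _ = ∑ p ∈ P, 2 * K * ((univ.filter fun x : G => x ∈ ann Λ ∧ p.1 + x ∈ A).card : ℝ) := mul_sum _ _ _
      _ < ∑ p ∈ P, (V.card : ℝ) := by
          apply sum_lt_sum_of_nonempty hPne
          intro p hp
          rw [hP, mem_product] at hp
          have := hcon p.1 hp.1
          rw [← hV] at this
          exact this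
      _ = _ := by
          rw [sum_const, hP, card_product, nsmul_eq_mul]
          push_cast
          ring
  linarith

end gen

/-- **Affine subspaces in three sums.** -/
theorem three_sums {G : Type} [AddCommGroup G] [Module (ZMod 2) G] [Fintype G] [DecidableEq G]
    (A B : Finset G) (hA : A.Nonempty) (hB : B.Nonempty) (j : ℕ) (hj : 1 ≤ j) (K : ℝ) (hK : 0 < K)
    (hF : (Fintype.card G : ℝ) * (A.card * (B.card : ℝ) ^ j) ≤
      K * ∑ ψ : AddChar G ℂ, ‖∑ x ∈ A, ψ x‖ ^ 2 * ‖∑ x ∈ B, ψ x‖ ^ j) :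
    ∃ (U : Submodule (ZMod 2) G) (y : G) (r : ℕ),
      (r : ℝ) ≤ 2 * (2 * K) ^ ((2 : ℝ) / j) * Real.log (Fintype.card G / B.card) + 4 * K ∧
      Fintype.card G ≤ 2 ^ r * Nat.card U ∧
      ∀ u ∈ U, ∃ a ∈ A, ∃ b ∈ A, ∃ c ∈ A, y + u = a + b + c := by
  classical
  obtain ⟨Λ, hΛ, a₀, ha₀, hd⟩ := core A B hA hB j hj K hK hF
  obtain ⟨D, hD⟩ : ∃ D : Finset (ann Λ), D = univ.filter fun v : ann Λ => a₀ + (v : G) ∈ A := ⟨_, rfl⟩
  have hVc : Fintype.card (ann Λ) = (univ.filter fun x : G => x ∈ ann Λ).card := Fintype.card_subtype _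
  have hDc : D.card = (univ.filter fun x : G => x ∈ ann Λ ∧ a₀ + x ∈ A).card := by
    refine card_bij (fun (w : ann Λ) _ => (w : G)) ?_ ?_ ?_
    · intro w hw
      rw [hD, mem_filter] at hw
      rw [mem_filter]
      exact ⟨mem_univ _, w.2, hw.2⟩
    · intro w _ w' _ hww
      exact Subtype.ext hww
    · intro x hx
      rw [mem_filter] at hx
      refine ⟨⟨x, hx.2.1⟩, ?_, rfl⟩
      rw [hD, mem_filter]
      exact ⟨mem_univ _, hx.2.2⟩
  have ht : ((⌈4 * K⌉₊ - 2 : ℕ) : ℝ) ≤ 4 * K := by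
    have h1 : ((⌈4 * K⌉₊ - 2 : ℕ) : ℝ) ≤ ((⌈4 * K⌉₊ - 1 : ℕ) : ℝ) := by
      have : ⌈4 * K⌉₊ - 2 ≤ ⌈4 * K⌉₊ - 1 := by omega
      exact_mod_cast this
    have h2 : 0 < ⌈4 * K⌉₊ := Nat.ceil_pos.2 (by positivity)
    have h3 : ((⌈4 * K⌉₊ - 1 : ℕ) : ℝ) = (⌈4 * K⌉₊ : ℝ) - 1 := by
      rw [Nat.cast_sub h2, Nat.cast_one]
    have h4 : (⌈4 * K⌉₊ : ℝ) < 4 * K + 1 := Nat.ceil_lt_add_one (by positivity)
    linarith
  have hkey : 2 * Fintype.card (ann Λ) ≤ (2 + (⌈4 * K⌉₊ - 2)) * D.card := by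
    have h1 : (⌈4 * K⌉₊ : ℝ) ≤ ((2 + (⌈4 * K⌉₊ - 2) : ℕ) : ℝ) := by
      have : ⌈4 * K⌉₊ ≤ 2 + (⌈4 * K⌉₊ - 2) := by omega
      exact_mod_cast this
    have h2 : 4 * K ≤ (⌈4 * K⌉₊ : ℝ) := Nat.le_ceil _
    have h3 : ((2 * Fintype.card (ann Λ) : ℕ) : ℝ) ≤ (((2 + (⌈4 * K⌉₊ - 2)) * D.card : ℕ) : ℝ) := by
      rw [Nat.cast_mul, Nat.cast_mul, hVc, hDc]
      calc ((2 : ℕ) : ℝ) * ((univ.filter fun x : G => x ∈ ann Λ).card : ℝ) ≤
          2 * (2 * K * ((univ.filter fun x : G => x ∈ ann Λ ∧ a₀ + x ∈ A).card : ℝ)) := by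
            push_cast
            linarith
        _ = (4 * K) * ((univ.filter fun x : G => x ∈ ann Λ ∧ a₀ + x ∈ A).card : ℝ) := by ring
        _ ≤ _ := mul_le_mul_of_nonneg_right (h2.trans h1) (Nat.cast_nonneg _)
    exact_mod_cast h3
  obtain ⟨U, y, hU, hsum⟩ := incr (⌈4 * K⌉₊ - 2) (ann Λ) D hkey
  refine ⟨U.map (ann Λ).subtype, a₀ + y, Λ.card + (⌈4 * K⌉₊ - 2), ?_, ?_, ?_⟩
  · push_cast
    linarith
  · have h1 : Nat.card (U.map (ann Λ).subtype) = Nat.card U :=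
      Nat.card_congr (Submodule.equivMapOfInjective (ann Λ).subtype (ann Λ).injective_subtype U).toEquiv.symm
    rw [h1]
    have h2 := card_ann Λ
    calc Fintype.card G ≤ Fintype.card (ann Λ) * 2 ^ Λ.card := by
          rw [hVc]
          convert h2
      _ ≤ (2 ^ (⌈4 * K⌉₊ - 2) * Nat.card U) * 2 ^ Λ.card := Nat.mul_le_mul_right _ hU
      _ = _ := by
          rw [pow_add]
          ring
  · intro u hu
    rw [Submodule.mem_map] at hu
    obtain ⟨v, hv, rfl⟩ := hu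
    obtain ⟨a, ha, b, hb, c, hc', habc⟩ := hsum v hv
    rw [hD, mem_filter] at ha hb hc'
    refine ⟨a₀ + a, ha.2, a₀ + b, hb.2, a₀ + c, hc'.2, ?_⟩
    have h2 : (y : G) + (v : G) = a + b + c := by
      have := congrArg (fun w : ann Λ => (w : G)) habc
      simpa using this
    have h3 : a₀ + a + (a₀ + b) + (a₀ + c) = a₀ + (a₀ + a₀) + (a + b + c) := by abel
    rw [h3, add_self2, add_zero, ← h2]
    show a₀ + y + (v : G) = a₀ + (y + v)
    rw [add_assoc]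

end Pool.Agent.H89.F2
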