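import Pool.Agent.H89.F2.Chr

/-!
# Subspaces in the sum of three copies of a set of positive density
-/

set_option autoImplicit false
set_option linter.unusedSectionVars false
set_option linter.unusedVariables false

namespace Pool.Agent.H89.F2

open Finset
open scoped Pointwise BigOperators ComplexConjugate

section gen

variable {G : Type*} [AddCommGroup G] [Module (ZMod 2) G] [Fintype G] [DecidableEq G]

/-- Parseval's identity -/
theorem pars_set (D : Finset G) :
    ∑ ψ : AddChar G ℂ, ‖∑ x ∈ D, ψ x‖ ^ 2 = Fintype.card G * (D.card : ℝ) := by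
  have h := pars D (fun x : G => x)
  rw [h]
  congr 2
  have e : (D ×ˢ D).filter (fun q : G × G => q.1 = q.2) = D.image fun x => (x, x) := by
    ext ⟨a, b⟩
    simp only [mem_filter, mem_product, mem_image, Prod.mk.injEq]
    constructor
    · rintro ⟨⟨h1, h2⟩, h3⟩
      exact ⟨a, h1, rfl, h3⟩
    · rintro ⟨x, hx, rfl, rfl⟩
      exact ⟨⟨hx, hx⟩, rfl⟩
  rw [e, card_image_of_injective]
  intro x y hxy
  exact (Prod.mk.inj hxy).1

/-- a character with a large coefficient, if three copies of `D` do not fill the group -/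
theorem big_char (D : Finset G) (hD : D.Nonempty) (z : G)
    (hz : ∀ a ∈ D, ∀ b ∈ D, ∀ c ∈ D, z ≠ a + b + c) :
    ∃ ψ : AddChar G ℂ, ψ ≠ 0 ∧ (D.card : ℝ) ^ 2 < Fintype.card G * ‖∑ x ∈ D, ψ x‖ := by
  classical
  by_contra hcon
  push Not at hcon
  have hd : (0 : ℝ) < D.card := by exact_mod_cast hD.card_pos
  have hN : (0 : ℝ) < Fintype.card G := by
    have : Nonempty G := ⟨0⟩
    exact_mod_cast Fintype.card_pos
  have h0 : ∑ ψ : AddChar G ℂ, (∑ x ∈ D, ψ x) ^ 3 * ψ z = 0 := by
    have e1 : ∀ ψ : AddChar G ℂ, (∑ x ∈ D, ψ x) ^ 3 * ψ z =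
        ∑ a ∈ D, ∑ b ∈ D, ∑ c ∈ D, ψ (a + b + c + z) := by
      intro ψ
      have e2 : (∑ x ∈ D, ψ x) ^ 3 * ψ z =
          (∑ a ∈ D, ψ a) * ((∑ b ∈ D, ψ b) * ((∑ c ∈ D, ψ c) * ψ z)) := by ring
      rw [e2, sum_mul]
      apply sum_congr rfl
      intro a _
      rw [sum_mul, mul_sum]
      apply sum_congr rfl
      intro b _
      rw [sum_mul, mul_sum, mul_sum]
      apply sum_congr rfl
      intro c _
      rw [AddChar.map_add_eq_mul, AddChar.map_add_eq_mul, AddChar.map_add_eq_mul]
      ring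
    simp_rw [e1]
    rw [sum_comm]
    apply sum_eq_zero
    intro a ha
    rw [sum_comm]
    apply sum_eq_zero
    intro b hb
    rw [sum_comm]
    apply sum_eq_zero
    intro c hc
    rw [AddChar.sum_apply_eq_ite, if_neg]
    intro h
    apply hz a ha b hb c hc
    have h2 := eq_neg_of_add_eq_zero_right h
    rw [h2, neg_self2]
  rw [← add_sum_erase univ _ (mem_univ (0 : AddChar G ℂ))] at h0
  have h1 : ((D.card : ℝ) : ℂ) ^ 3 = - ∑ ψ ∈ univ.erase (0 : AddChar G ℂ), (∑ x ∈ D, ψ x) ^ 3 * ψ z := by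
    have e3 : (∑ x ∈ D, (0 : AddChar G ℂ) x) ^ 3 * (0 : AddChar G ℂ) z = ((D.card : ℝ) : ℂ) ^ 3 := by
      simp
    rw [e3] at h0
    exact eq_neg_of_add_eq_zero_left h0
  have h2 : (D.card : ℝ) ^ 3 ≤ ∑ ψ ∈ univ.erase (0 : AddChar G ℂ), ‖∑ x ∈ D, ψ x‖ ^ 3 := by
    have h3 : ‖((D.card : ℝ) : ℂ) ^ 3‖ = (D.card : ℝ) ^ 3 := by
      rw [norm_pow, Complex.norm_real, Real.norm_of_nonneg hd.le]
    rw [← h3, h1, norm_neg]
    refine (norm_sum_le _ _).trans (le_of_eq ?_)
    apply sum_congr rfl
    intro ψ _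
    rw [norm_mul, norm_pow, AddChar.norm_apply, mul_one]
  have h4 : ∑ ψ ∈ univ.erase (0 : AddChar G ℂ), ‖∑ x ∈ D, ψ x‖ ^ 2 =
      Fintype.card G * (D.card : ℝ) - (D.card : ℝ) ^ 2 := by
    have h5 := pars_set D
    rw [← add_sum_erase univ _ (mem_univ (0 : AddChar G ℂ))] at h5
    have e3 : ‖∑ x ∈ D, (0 : AddChar G ℂ) x‖ ^ 2 = (D.card : ℝ) ^ 2 := by
      simp
    rw [e3] at h5
    linarith
  have h5 : Fintype.card G * ∑ ψ ∈ univ.erase (0 : AddChar G ℂ), ‖∑ x ∈ D, ψ x‖ ^ 3 ≤
      (D.card : ℝ) ^ 2 * ∑ ψ ∈ univ.erase (0 : AddChar G ℂ), ‖∑ x ∈ D, ψ x‖ ^ 2 := by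
    rw [mul_sum, mul_sum]
    apply sum_le_sum
    intro ψ hψ
    have h6 := hcon ψ (ne_of_mem_erase hψ)
    calc Fintype.card G * ‖∑ x ∈ D, ψ x‖ ^ 3 = (Fintype.card G * ‖∑ x ∈ D, ψ x‖) * ‖∑ x ∈ D, ψ x‖ ^ 2 := by
          ring
      _ ≤ _ := mul_le_mul_of_nonneg_right h6 (by positivity)
  rw [h4] at h5
  have h6 : Fintype.card G * (D.card : ℝ) ^ 3 ≤ (D.card : ℝ) ^ 2 * (Fintype.card G * (D.card : ℝ) - (D.card : ℝ) ^ 2) :=
    (mul_le_mul_of_nonneg_left h2 hN.le).trans h5
  have h7 : 0 < (D.card : ℝ) ^ 4 := by positivity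
  nlinarith

/-- the kernel of a nontrivial character has half the size -/
theorem half_char (ψ : AddChar G ℂ) (hψ : ψ ≠ 0) :
    2 * (univ.filter fun x : G => ψ x = 1).card = Fintype.card G := by
  classical
  have h1 : ∑ x : G, ψ x = 0 := AddChar.sum_eq_zero_iff_ne_zero.2 hψ
  have h2 : ∀ x : G, ψ x = 2 * (if ψ x = 1 then (1 : ℂ) else 0) - 1 := by
    intro x
    rcases char_sq ψ x with h | h
    · rw [if_pos h, h]
      norm_num
    · have h3 : ψ x ≠ 1 := by
        rw [h]
        norm_num
      rw [if_neg h3, h]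
      norm_num
  have h3 : ∑ x : G, ψ x = 2 * ((univ.filter fun x : G => ψ x = 1).card : ℂ) - Fintype.card G := by
    calc ∑ x : G, ψ x = ∑ x : G, (2 * (if ψ x = 1 then (1 : ℂ) else 0) - 1) :=
          sum_congr rfl fun x _ => h2 x
      _ = _ := by
          rw [sum_sub_distrib, ← mul_sum, sum_boole]
          simp
  rw [h1] at h3
  have h4 : (2 * ((univ.filter fun x : G => ψ x = 1).card : ℂ)) = Fintype.card G := by
    linear_combination -h3
  exact_mod_cast h4

/-- one half of `D` is large -/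
theorem half_set (D : Finset G) (ψ : AddChar G ℂ) (hψ : ψ ≠ 0) :
    ∃ y : G, 2 * ((D.filter fun x => ψ x = ψ y).card : ℝ) = D.card + ‖∑ x ∈ D, ψ x‖ := by
  classical
  have h2 : ∀ x : G, ψ x = 2 * (if ψ x = 1 then (1 : ℂ) else 0) - 1 := by
    intro x
    rcases char_sq ψ x with h | h
    · rw [if_pos h, h]
      norm_num
    · have h3 : ψ x ≠ 1 := by
        rw [h]
        norm_num
      rw [if_neg h3, h]
      norm_num
  have h3 : ∑ x ∈ D, ψ x = ((2 * ((D.filter fun x : G => ψ x = 1).card : ℝ) - D.card : ℝ) : ℂ) := by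
    calc ∑ x ∈ D, ψ x = ∑ x ∈ D, (2 * (if ψ x = 1 then (1 : ℂ) else 0) - 1) :=
          sum_congr rfl fun x _ => h2 x
      _ = _ := by
          rw [sum_sub_distrib, ← mul_sum, sum_boole]
          simp
  rw [h3, Complex.norm_real, Real.norm_eq_abs]
  rcases le_total 0 (2 * ((D.filter fun x : G => ψ x = 1).card : ℝ) - D.card) with h | h
  · refine ⟨0, ?_⟩
    rw [abs_of_nonneg h, AddChar.map_zero_eq_one]
    ring
  · obtain ⟨y, hy⟩ : ∃ y : G, ψ y = -1 := by
      by_contra hcon
      push Not at hcon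
      apply hψ
      ext x
      rcases char_sq ψ x with h4 | h4
      · simpa using h4
      · exact absurd h4 (hcon x)
    refine ⟨y, ?_⟩
    rw [abs_of_nonpos h, hy]
    have h5 : (D.filter fun x : G => ψ x = 1).card + (D.filter fun x : G => ψ x = -1).card = D.card := by
      rw [← card_filter_add_card_filter_not (s := D) (fun x : G => ψ x = 1)]
      congr 2
      ext x
      simp only [mem_filter]
      constructor
      · rintro ⟨h6, h7⟩
        refine ⟨h6, ?_⟩
        rw [h7]
        norm_num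
      · rintro ⟨h6, h7⟩
        exact ⟨h6, (char_sq ψ x).resolve_left h7⟩
    have h6 : ((D.filter fun x : G => ψ x = 1).card : ℝ) + ((D.filter fun x : G => ψ x = -1).card : ℝ) =
        D.card := by exact_mod_cast h5
    linarith

end gen

/-- **The density increment argument for three sums.** -/
theorem incr (t : ℕ) : ∀ (G : Type) [AddCommGroup G] [Module (ZMod 2) G] [Fintype G] [DecidableEq G]
    (D : Finset G), 2 * Fintype.card G ≤ (2 + t) * D.card →
    ∃ (U : Submodule (ZMod 2) G) (y : G), Fintype.card G ≤ 2 ^ t * Nat.card U ∧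
      ∀ u ∈ U, ∃ a ∈ D, ∃ b ∈ D, ∃ c ∈ D, y + u = a + b + c := by
  classical
  induction t with
  | zero =>
    intro G _ _ _ _ D hD
    have h1 : D = univ := by
      apply eq_univ_of_card
      have := card_le_univ D
      omega
    refine ⟨⊤, 0, ?_, ?_⟩
    · rw [Nat.card_eq_fintype_card, pow_zero, one_mul]
      exact le_of_eq (Fintype.card_congr Submodule.topEquiv.toEquiv.symm)
    · intro u _
      rw [h1]
      exact ⟨u, mem_univ _, 0, mem_univ _, 0, mem_univ _, by abel⟩
  | succ t ih =>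
    intro G _ _ _ _ D hD
    have hNpos : 0 < Fintype.card G := by
      have : Nonempty G := ⟨0⟩
      exact Fintype.card_pos
    have hDne : D.Nonempty := by
      rw [← card_pos]
      by_contra h
      have h0 : D.card = 0 := by omega
      rw [h0] at hD
      omega
    by_cases hall : ∀ z : G, ∃ a ∈ D, ∃ b ∈ D, ∃ c ∈ D, z = a + b + c
    · refine ⟨⊤, 0, ?_, ?_⟩
      · rw [Nat.card_eq_fintype_card, Fintype.card_congr (Submodule.topEquiv (R := ZMod 2) (M := G)).toEquiv]
        exact Nat.le_mul_of_pos_left _ (by positivity)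
      · intro u _
        rw [zero_add]
        exact hall u
    push Not at hall
    obtain ⟨z, hz⟩ := hall
    obtain ⟨ψ, hψ, hbig⟩ := big_char D hDne z hz
    obtain ⟨y, hy⟩ := half_set D ψ hψ
    obtain ⟨W, hW⟩ : ∃ W : Submodule (ZMod 2) G, W = ann {ψ} := ⟨_, rfl⟩
    have hWm : ∀ x : G, x ∈ W ↔ ψ x = 1 := by
      intro x
      rw [hW, mem_ann]
      simp
    have hWc : 2 * Fintype.card W = Fintype.card G := by
      rw [← half_char ψ hψ, Fintype.card_subtype]
      congr 2
      ext x
      simp only [mem_filter, mem_univ, true_and]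
      exact hWm x
    obtain ⟨D', hD'⟩ : ∃ D' : Finset W, D' = univ.filter fun w : W => y + (w : G) ∈ D := ⟨_, rfl⟩
    have hc : D'.card = (D.filter fun x => ψ x = ψ y).card := by
      refine card_bij (fun (w : W) _ => y + (w : G)) ?_ ?_ ?_
      · intro w hw
        rw [hD', mem_filter] at hw
        rw [mem_filter]
        refine ⟨hw.2, ?_⟩
        rw [AddChar.map_add_eq_mul, (hWm _).1 w.2, mul_one]
      · intro w _ w' _ hww
        exact Subtype.ext (add_left_cancel hww)
      · intro x hx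
        rw [mem_filter] at hx
        refine ⟨⟨y + x, ?_⟩, ?_, ?_⟩
        · rw [hWm, AddChar.map_add_eq_mul, hx.2]
          rcases char_sq ψ y with h | h <;> rw [h] <;> norm_num
        · rw [hD', mem_filter]
          refine ⟨mem_univ _, ?_⟩
          show y + (y + x) ∈ D
          rw [← add_assoc, add_self2, zero_add]
          exact hx.1
        · show y + (y + x) = x
          rw [← add_assoc, add_self2, zero_add]
    have hkey : 2 * Fintype.card W ≤ (2 + t) * D'.card := by
      have hg : (0 : ℝ) < Fintype.card G := by exact_mod_cast hNpos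
      have hd0 : (0 : ℝ) < D.card := by exact_mod_cast hDne.card_pos
      have hdg : (D.card : ℝ) ≤ Fintype.card G := by exact_mod_cast card_le_univ D
      have h1 : (2 : ℝ) * Fintype.card G ≤ (3 + t) * D.card := by
        have h2 : ((2 * Fintype.card G : ℕ) : ℝ) ≤ (((2 + (t + 1)) * D.card : ℕ) : ℝ) := by exact_mod_cast hD
        push_cast at h2
        linarith
      have h3 : (D.card : ℝ) * (Fintype.card G + D.card) < 2 * Fintype.card G * D'.card := by
        rw [hc]
        nlinarith
      have h4 : (Fintype.card G : ℝ) ≤ (2 + t) * D'.card := by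
        have ht : (0 : ℝ) ≤ t := Nat.cast_nonneg t
        have h5 : (2 : ℝ) * Fintype.card G ^ 2 ≤ (2 + t) * (D.card * (Fintype.card G + D.card)) := by
          have h6 : (2 : ℝ) * Fintype.card G - D.card ≤ (2 + t) * D.card := by linarith
          have h7 : ((2 : ℝ) * Fintype.card G - D.card) * (Fintype.card G + D.card) ≤
              ((2 + t) * D.card) * (Fintype.card G + D.card) :=
            mul_le_mul_of_nonneg_right h6 (by linarith)
          nlinarith [mul_nonneg hd0.le (sub_nonneg.2 hdg)]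
        have h8 : (2 : ℝ) * Fintype.card G * Fintype.card G ≤
            2 * Fintype.card G * ((2 + t) * D'.card) := by
          calc _ = (2 : ℝ) * Fintype.card G ^ 2 := by ring
            _ ≤ (2 + t) * (D.card * (Fintype.card G + D.card)) := h5
            _ ≤ (2 + t) * (2 * Fintype.card G * D'.card) :=
                mul_le_mul_of_nonneg_left h3.le (by linarith)
            _ = _ := by ring
        exact le_of_mul_le_mul_left h8 (by linarith)
      rw [hWc]
      exact_mod_cast h4
    obtain ⟨U, y', hU, hsum⟩ := ih W D' hkey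
    refine ⟨U.map W.subtype, y + y', ?_, ?_⟩
    · have h1 : Nat.card (U.map W.subtype) = Nat.card U :=
        Nat.card_congr (Submodule.equivMapOfInjective W.subtype W.injective_subtype U).toEquiv.symm
      rw [h1, ← hWc, pow_succ]
      calc 2 * Fintype.card W ≤ 2 * (2 ^ t * Nat.card U) := Nat.mul_le_mul_left _ hU
        _ = _ := by ring
    · intro u hu
      rw [Submodule.mem_map] at hu
      obtain ⟨v, hv, rfl⟩ := hu
      obtain ⟨a, ha, b, hb, c, hc', habc⟩ := hsum v hv
      rw [hD', mem_filter] at ha hb hc'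
      refine ⟨y + a, ha.2, y + b, hb.2, y + c, hc'.2, ?_⟩
      have h2 : (y' : G) + (v : G) = a + b + c := by
        have := congrArg (fun w : W => (w : G)) habc
        simpa using this
      have h3 : y + a + (y + b) + (y + c) = y + (y + y) + (a + b + c) := by abel
      rw [h3, add_self2, add_zero, ← h2]
      show y + y' + (v : G) = y + (y' + v)
      rw [add_assoc]

end Pool.Agent.H89.F2
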