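import Pool.Agent.H89.F2.Sub
import Pool.Agent.H89.LV.Dbl

/-!
# Small doubling in a group of exponent two
-/

set_option autoImplicit false
set_option linter.unusedSectionVars false
set_option linter.unusedVariables false

namespace Pool.Agent.H89.F2

open Finset Pool.Agent.K4H60.BZ Pool.Agent.H89.EN Pool.Agent.H89.LV
open scoped Pointwise BigOperators ComplexConjugate

variable {G : Type*} [AddCommGroup G] [Module (ZMod 2) G] [Fintype G] [DecidableEq G]

theorem z2 (c : ZMod 2) : c = 0 ∨ c = 1 := by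
  revert c
  decide

/-- the fourfold sumset -/
def D4 (A : Finset G) : Finset G := A + A + A + A

theorem zero_D4 (A : Finset G) (hA : A.Nonempty) : (0 : G) ∈ D4 A := by
  obtain ⟨a, ha⟩ := hA
  have h : (0 : G) = a + a + a + a := by rw [add_self2, zero_add, add_self2]
  rw [h]
  exact add_mem_add (add_mem_add (add_mem_add ha ha) ha) ha

theorem two_D4 (A : Finset G) (hA : A.Nonempty) : A + A ⊆ D4 A := by
  intro x hx
  obtain ⟨a, ha⟩ := hA
  have h : x = x + a + a := by rw [add_assoc, add_self2, add_zero]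
  rw [h]
  exact add_mem_add (add_mem_add hx ha) ha

/-- a subspace which meets the twelvefold sumset in zero only, such that every coset meets it -/
theorem exists_model (A : Finset G) (hA : A.Nonempty) :
    ∃ H : Submodule (ZMod 2) G, (∀ x ∈ H, x ∈ D4 A + D4 A + D4 A → x = 0) ∧
      ∀ x : G, ∃ h ∈ H, x + h ∈ D4 A + D4 A + D4 A := by
  classical
  have h0 : (0 : G) ∈ D4 A + D4 A + D4 A := by
    have h : (0 : G) = 0 + 0 + 0 := by rw [add_zero, add_zero]
    rw [h]
    exact add_mem_add (add_mem_add (zero_D4 A hA) (zero_D4 A hA)) (zero_D4 A hA)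
  have hfin : Finite (Submodule (ZMod 2) G) := Finite.of_injective (fun H : Submodule (ZMod 2) G => (H : Set G))
    SetLike.coe_injective
  obtain ⟨H, hH, hmax⟩ := Set.exists_max_image {H : Submodule (ZMod 2) G | ∀ x ∈ H, x ∈ D4 A + D4 A + D4 A → x = 0}
    (fun H => Nat.card H) (Set.toFinite _) ⟨⊥, fun x hx _ => (Submodule.mem_bot (ZMod 2)).1 hx⟩
  refine ⟨H, hH, fun x => ?_⟩
  by_cases hx : x ∈ H
  · exact ⟨x, hx, by rw [add_self2]; exact h0⟩
  · by_contra hcon
    push Not at hcon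
    have h1 : (H ⊔ Submodule.span (ZMod 2) {x}) ∈
        {H : Submodule (ZMod 2) G | ∀ x ∈ H, x ∈ D4 A + D4 A + D4 A → x = 0} := by
      intro z hz hz'
      obtain ⟨h, hh, y, hy, rfl⟩ := Submodule.mem_sup.1 hz
      obtain ⟨c, rfl⟩ := Submodule.mem_span_singleton.1 hy
      rcases z2 c with h2 | h2
      · rw [h2, zero_smul, add_zero] at hz' ⊢
        exact hH h hh hz'
      · rw [h2, one_smul, add_comm h x] at hz'
        exact absurd hz' (hcon h hh)
    have h2 := hmax _ h1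
    have h3 : H < H ⊔ Submodule.span (ZMod 2) {x} := by
      refine lt_of_le_of_ne le_sup_left ?_
      intro h4
      apply hx
      rw [h4]
      exact Submodule.mem_sup_right (Submodule.mem_span_singleton_self x)
    have h4 : Nat.card H < Nat.card (H ⊔ Submodule.span (ZMod 2) {x} : Submodule (ZMod 2) G) := by
      have h5 : (H : Set G) ⊂ ((H ⊔ Submodule.span (ZMod 2) {x} : Submodule (ZMod 2) G) : Set G) := h3
      have h6 := Set.ncard_lt_ncard h5 (Set.toFinite _)
      exact h6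
    omega

/-- **Small doubling.** -/
theorem doubling2 (A : Finset G) (hA : A.Nonempty) (η : ℝ) (hη : 0 < η) (hη1 : η < 1 / 4) (k : ℝ) (hk0 : 0 ≤ k)
    (hk : ((A + A).card : ℝ) ≤ Real.exp k * A.card) :
    ∃ (V : Submodule (ZMod 2) G) (r : ℕ),
      (r : ℝ) ≤ 10 ^ 18 / η ^ 8 * ((1 + 12 * k) ^ 2 * Real.log (2 + 12 * k) ^ 4) ∧
      A.card ≤ 2 ^ r * Nat.card V ∧
      (∀ v ∈ V, ∃ a ∈ A, ∃ b ∈ A, ∃ c ∈ A, ∃ d ∈ A, v = a + b + c + d) ∧
      ∃ t : G, (1 - 5 * η) * (Nat.card V : ℝ) ≤ (Nat.card {v : V // t + v ∈ A + A} : ℝ) := by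
  classical
  obtain ⟨H, hH, hcov⟩ := exists_model A hA
  have : Fintype (G ⧸ H) := Fintype.ofFinite _
  obtain ⟨φ, hφ⟩ : ∃ φ : G →ₗ[ZMod 2] (G ⧸ H), φ = H.mkQ := ⟨_, rfl⟩
  have hker : ∀ x, φ x = 0 → x ∈ H := by
    intro x hx
    rw [hφ, Submodule.mkQ_apply, Submodule.Quotient.mk_eq_zero] at hx
    exact hx
  have hker' : ∀ x ∈ H, φ x = 0 := by
    intro x hx
    rw [hφ, Submodule.mkQ_apply, Submodule.Quotient.mk_eq_zero]
    exact hx
  have hsurj : Function.Surjective φ := by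
    rw [hφ]
    exact Submodule.mkQ_surjective H
  have h0 := zero_D4 A hA
  -- three elements
  have F : ∀ u ∈ D4 A, ∀ v ∈ D4 A, ∀ w ∈ D4 A, φ w = φ (u + v) → u + v = w := by
    intro u hu v hv w hw h
    have h1 : φ (u + v + w) = 0 := by
      rw [map_add φ (u + v) w, h, add_self2]
    have h2 := hH _ (hker _ h1) (add_mem_add (add_mem_add hu hv) hw)
    have h3 : u + v + w + w = w := by rw [h2, zero_add]
    rw [add_assoc (u + v), add_self2, add_zero] at h3
    exact h3
  have F2 : ∀ u ∈ D4 A, ∀ w ∈ D4 A, φ w = φ u → u = w := by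
    intro u hu w hw h
    have := F u hu 0 h0 w hw (by rw [add_zero]; exact h)
    rw [add_zero] at this
    exact this
  obtain ⟨A', hA'⟩ : ∃ A' : Finset (G ⧸ H), A' = A.image φ := ⟨_, rfl⟩
  have hA'card : A'.card = A.card := by
    rw [hA']
    apply card_image_of_injOn
    intro a ha b hb hab
    have h1 : a + b ∈ D4 A := two_D4 A hA (add_mem_add ha hb)
    have h2 : φ (a + b) = φ 0 := by
      rw [map_add φ, map_zero φ]
      show φ a + φ b = 0
      have : φ a = φ b := hab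
      rw [this, add_self2]
    have h3 := F2 (a + b) h1 0 h0 h2.symm
    have h4 : a + b + b = b := by rw [h3, zero_add]
    rw [add_assoc, add_self2, add_zero] at h4
    exact h4
  have hA'ne : A'.Nonempty := by
    rw [hA']
    exact hA.image φ
  -- the size of the quotient
  have hsize : (Fintype.card (G ⧸ H) : ℝ) ≤ Real.exp (12 * k) * A'.card := by
    have h1 : (univ : Finset (G ⧸ H)) ⊆ (D4 A + D4 A + D4 A).image φ := by
      intro y _
      obtain ⟨x, rfl⟩ := hsurj y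
      obtain ⟨h, hh, hx⟩ := hcov x
      rw [mem_image]
      refine ⟨x + h, hx, ?_⟩
      rw [map_add φ, hker' h hh, add_zero]
    have h2 : Fintype.card (G ⧸ H) ≤ (D4 A + D4 A + D4 A).card := by
      rw [← card_univ]
      exact (card_le_card h1).trans card_image_le
    have h3 : D4 A + D4 A + D4 A ⊆ (12 : ℕ) • A - (0 : ℕ) • A := by
      have e1 : (12 : ℕ) • A = D4 A + D4 A + D4 A := by
        have e2 : (4 : ℕ) • A = D4 A := by
          rw [show (4 : ℕ) = 1 + 1 + 1 + 1 by norm_num, add_nsmul, add_nsmul, add_nsmul, one_nsmul]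
          rfl
        rw [show (12 : ℕ) = 4 + 4 + 4 by norm_num, add_nsmul, add_nsmul, e2]
      rw [e1, zero_nsmul]
      intro x hx
      rw [mem_sub]
      exact ⟨x, hx, 0, by simp, sub_zero x⟩
    have h4 : A - A = A + A := by
      ext x
      rw [mem_sub, mem_add]
      constructor
      · rintro ⟨a, ha, b, hb, rfl⟩
        exact ⟨a, ha, b, hb, (sub_add2 a b).symm⟩
      · rintro ⟨a, ha, b, hb, rfl⟩
        exact ⟨a, ha, b, hb, sub_add2 a b⟩
    have h5 := plu A hA k (by rw [h4]; exact hk) 12 0 _ h3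
    rw [hA'card]
    have h6 : (Fintype.card (G ⧸ H) : ℝ) ≤ (D4 A + D4 A + D4 A).card := by exact_mod_cast h2
    refine (h6.trans h5).trans (le_of_eq ?_)
    congr 2
    push_cast
    ring
  obtain ⟨V', r, hr, hcard, h4A, t', ht'⟩ := dense A' hA'ne η hη hη1 (12 * k) (by linarith) hsize
  -- lifting
  have hlift : ∀ v' ∈ V', ∃ u ∈ D4 A, φ u = v' := by
    intro v' hv'
    obtain ⟨a', ha', b', hb', c', hc', d', hd', rfl⟩ := h4A v' hv'
    rw [hA', mem_image] at ha' hb' hc' hd'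
    obtain ⟨a, ha, rfl⟩ := ha'
    obtain ⟨b, hb, rfl⟩ := hb'
    obtain ⟨c, hc, rfl⟩ := hc'
    obtain ⟨d, hd, rfl⟩ := hd'
    exact ⟨a + b + c + d, add_mem_add (add_mem_add (add_mem_add ha hb) hc) hd, by simp only [map_add]⟩
  obtain ⟨V, hV⟩ : ∃ V : Submodule (ZMod 2) G, ∀ x, x ∈ V ↔ x ∈ D4 A ∧ φ x ∈ V' := by
    refine ⟨{ carrier := {x | x ∈ D4 A ∧ φ x ∈ V'}, add_mem' := ?_, zero_mem' := ?_, smul_mem' := ?_ }, fun x => Iff.rfl⟩
    · rintro x y ⟨hx1, hx2⟩ ⟨hy1, hy2⟩
      have h1 : φ (x + y) ∈ V' := by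
        rw [map_add φ]
        exact V'.add_mem hx2 hy2
      obtain ⟨w, hw, hw'⟩ := hlift _ h1
      have h2 := F x hx1 y hy1 w hw hw'
      exact ⟨by rw [h2]; exact hw, h1⟩
    · exact ⟨h0, by rw [map_zero φ]; exact V'.zero_mem⟩
    · rintro c x ⟨hx1, hx2⟩
      rcases z2 c with h | h
      · rw [h, zero_smul]
        exact ⟨h0, by rw [map_zero φ]; exact V'.zero_mem⟩
      · rw [h, one_smul]
        exact ⟨hx1, hx2⟩
  have hVcard : Nat.card V = Nat.card V' := by
    refine Nat.card_congr (Equiv.ofBijective (fun x : V => (⟨φ x.1, ((hV x.1).1 x.2).2⟩ : V')) ⟨?_, ?_⟩)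
    · intro x y hxy
      have h1 : φ x.1 = φ y.1 := congrArg Subtype.val hxy
      exact Subtype.ext (F2 x.1 ((hV x.1).1 x.2).1 y.1 ((hV y.1).1 y.2).1 h1.symm)
    · intro v'
      obtain ⟨u, hu, hu'⟩ := hlift v'.1 v'.2
      exact ⟨⟨u, (hV u).2 ⟨hu, by rw [hu']; exact v'.2⟩⟩, Subtype.ext hu'⟩
  refine ⟨V, r, hr, ?_, ?_, ?_⟩
  · rw [hVcard]
    refine le_trans ?_ hcard
    rw [← hA'card]
    exact card_le_univ _
  · intro v hv
    obtain ⟨x, hx, d, hd, h1⟩ := mem_add.1 ((hV v).1 hv).1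
    obtain ⟨y, hy, c, hc, h2⟩ := mem_add.1 hx
    obtain ⟨a, ha, b, hb, h3⟩ := mem_add.1 hy
    exact ⟨a, ha, b, hb, c, hc, d, hd, by rw [h3, h2, h1]⟩
  · rw [hVcard]
    by_cases hemp : ∃ v₀ : V', t' + v₀ ∈ A' + A'
    · obtain ⟨v₀, hv₀⟩ := hemp
      have hsum : ∀ y ∈ A' + A', ∃ w ∈ A + A, φ w = y := by
        intro y hy
        obtain ⟨a', ha', b', hb', rfl⟩ := mem_add.1 hy
        rw [hA', mem_image] at ha' hb'
        obtain ⟨a, ha, rfl⟩ := ha'
        obtain ⟨b, hb, rfl⟩ := hb'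
        exact ⟨a + b, add_mem_add ha hb, by simp only [map_add]⟩
      obtain ⟨t, ht, htφ⟩ := hsum _ hv₀
      refine ⟨t, ht'.trans ?_⟩
      have hkey : ∀ v' : {v : V' // t' + v ∈ A' + A'}, ∃ v : V, φ v.1 = v'.1.1 + v₀.1 ∧ t + v.1 ∈ A + A := by
        intro v'
        have h1 : v'.1.1 + v₀.1 ∈ V' := V'.add_mem v'.1.2 v₀.2
        obtain ⟨u, hu, hu'⟩ := hlift _ h1
        refine ⟨⟨u, (hV u).2 ⟨hu, by rw [hu']; exact h1⟩⟩, hu', ?_⟩
        obtain ⟨w, hw, hw'⟩ := hsum _ v'.2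
        have h2 : φ w = φ (t + u) := by
          rw [hw', map_add φ, htφ, hu']
          have e : t' + v₀.1 + (v'.1.1 + v₀.1) = t' + v'.1.1 + (v₀.1 + v₀.1) := by abel
          rw [e, add_self2, add_zero]
        have h3 := F t (two_D4 A hA ht) u hu w (two_D4 A hA hw) h2
        show t + u ∈ A + A
        rw [h3]
        exact hw
      choose f hf1 hf2 using hkey
      have hle : Nat.card {v : V' // t' + v ∈ A' + A'} ≤ Nat.card {v : V // t + v ∈ A + A} := by
        apply Nat.card_le_card_of_injective (fun v' => (⟨f v', hf2 v'⟩ : {v : V // t + v ∈ A + A}))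
        intro v' v'' h
        have h1 : f v' = f v'' := congrArg Subtype.val h
        have h2 : v'.1.1 + v₀.1 = v''.1.1 + v₀.1 := by rw [← hf1 v', ← hf1 v'', h1]
        exact Subtype.ext (Subtype.ext (add_right_cancel h2))
      exact_mod_cast hle
    · refine ⟨0, ?_⟩
      push Not at hemp
      have h1 : Nat.card {v : V' // t' + v ∈ A' + A'} = 0 := by
        rw [Nat.card_eq_zero]
        left
        exact ⟨fun v => hemp v.1 v.2⟩
      rw [h1] at ht'
      push_cast at ht'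
      exact ht'.trans (Nat.cast_nonneg _)

end Pool.Agent.H89.F2
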