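import Pool.Agent.H89.F2.Sub

/-!
# Multiples of a dense set in a group of exponent two
-/

set_option autoImplicit false
set_option linter.unusedSectionVars false
set_option linter.unusedVariables false

namespace Pool.Agent.H89.F2

open Finset Pool.Agent.K4H60.BZ Pool.Agent.H89.EN Pool.Agent.H89.LV
open scoped Pointwise BigOperators ComplexConjugate

variable {G : Type*} [AddCommGroup G] [Module (ZMod 2) G] [Fintype G] [DecidableEq G]

/-- a multiple of `A` which grows slowly -/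
theorem exists_mult (A : Finset G) (hA : A.Nonempty) (l : ℝ) (hl : (Fintype.card G : ℝ) ≤ Real.exp l * A.card)
    (k : ℕ) (hk : 2 ≤ k) :
    ∃ j : ℕ, 1 ≤ j ∧ j + 1 ≤ k ∧ ((A + j • A).card : ℝ) ≤ Real.exp (l / (k - 1)) * (j • A).card := by
  have hNpos : (0 : ℝ) < Fintype.card G := by
    have : Nonempty G := ⟨0⟩
    exact_mod_cast Fintype.card_pos
  have hApos : (0 : ℝ) < A.card := by exact_mod_cast hA.card_pos
  have hl' : Real.log (Fintype.card G) ≤ l + Real.log A.card := by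
    have := Real.log_le_log hNpos hl
    rwa [Real.log_mul (Real.exp_pos _).ne' hApos.ne', Real.log_exp] at this
  obtain ⟨j, hj1, hjk, hj⟩ : ∃ j : ℕ, 1 ≤ j ∧ j + 1 ≤ k ∧
      Real.log ((j + 1) • A).card - Real.log (j • A).card ≤ l / (k - 1) := by
    by_contra hcon
    push Not at hcon
    have h1 : ∀ i : ℕ, i + 1 ≤ k → i * (l / (k - 1)) ≤ Real.log ((i + 1) • A).card - Real.log A.card := by
      intro i
      induction i with
      | zero =>
        intro _
        simp
      | succ i ih =>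
        intro hi
        have h2 := ih (by omega)
        have h3 := hcon (i + 1) (by omega) hi
        push_cast
        linarith
    obtain ⟨m, rfl⟩ : ∃ m, k = m + 2 := ⟨k - 2, by omega⟩
    have h2 := h1 m (by omega)
    have h3 := hcon (m + 1) (by omega) (by omega)
    have h4 : Real.log ((m + 1 + 1) • A).card ≤ Real.log (Fintype.card G) := by
      apply Real.log_le_log (by exact_mod_cast (hA.nsmul).card_pos)
      exact_mod_cast Finset.card_le_univ ((m + 1 + 1) • A)
    have h5 : (m : ℝ) * (l / (((m + 2 : ℕ) : ℝ) - 1)) + l / (((m + 2 : ℕ) : ℝ) - 1) = l := by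
      push_cast
      have : (m : ℝ) + 2 - 1 ≠ 0 := by
        have : (0 : ℝ) ≤ m := Nat.cast_nonneg m
        linarith
      field_simp
      ring
    linarith
  refine ⟨j, hj1, hjk, ?_⟩
  have hjApos : (0 : ℝ) < (j • A).card := by exact_mod_cast (hA.nsmul).card_pos
  have hjApos' : (0 : ℝ) < ((j + 1) • A).card := by exact_mod_cast (hA.nsmul).card_pos
  have e : A + j • A = (j + 1) • A := by rw [succ_nsmul, add_comm]
  rw [e, ← Real.log_le_log_iff hjApos' (by positivity), Real.log_mul (Real.exp_pos _).ne' hjApos.ne', Real.log_exp]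
  linarith

/-- the numbers -/
theorem numbers (l y p : ℝ) (hl1 : 0.69 ≤ l) (hy0 : 0 ≤ y) (hp0 : 0 ≤ p) (h3 : p ≤ 2 * y) (hpl : p ≤ l) :
    (1 + p) * (1 + p + l) * (Real.log (2 + p) ^ 3 * Real.log (2 + p + l + 0)) ≤
      112 * ((1 + y) * l * (Real.log (2 + y) ^ 3 * Real.log (2 + l))) ∧
    (1 + p) ^ 2 * (1 + l) ≤ 10 * ((1 + y) * l * (1 + y)) := by
  have h5 : 1 + p ≤ 2 * (1 + y) := by linarith
  have h6 : 1 + l ≤ 2.5 * l := by linarith
  have h7 : 1 + p + l ≤ 3.5 * l := by linarith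
  have g1 : 0 ≤ Real.log (2 + p) := Real.log_nonneg (by linarith)
  have g2 : 0 ≤ Real.log (2 + y) := Real.log_nonneg (by linarith)
  have g3 : 0 ≤ Real.log (2 + l) := Real.log_nonneg (by linarith)
  have g4 : 0 ≤ Real.log (2 + p + l) := Real.log_nonneg (by linarith)
  have h8 : Real.log (2 + p) ≤ 2 * Real.log (2 + y) := by
    have k1 : 2 + p ≤ (2 + y) ^ 2 := by nlinarith
    have k2 := Real.log_le_log (by linarith) k1
    rw [Real.log_pow] at k2
    exact_mod_cast k2
  have h9 : Real.log (2 + p + l) ≤ 2 * Real.log (2 + l) := by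
    have k1 : 2 + p + l ≤ (2 + l) ^ 2 := by nlinarith
    have k2 := Real.log_le_log (by linarith) k1
    rw [Real.log_pow] at k2
    exact_mod_cast k2
  refine ⟨?_, ?_⟩
  · rw [add_zero]
    have k1 : 0 ≤ 1 + p + l := by linarith
    calc (1 + p) * (1 + p + l) * (Real.log (2 + p) ^ 3 * Real.log (2 + p + l)) ≤
        (2 * (1 + y)) * (3.5 * l) * ((2 * Real.log (2 + y)) ^ 3 * (2 * Real.log (2 + l))) := by gcongr
      _ = 112 * ((1 + y) * l * (Real.log (2 + y) ^ 3 * Real.log (2 + l))) := by ring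
  · calc (1 + p) ^ 2 * (1 + l) ≤ (2 * (1 + y)) ^ 2 * (2.5 * l) := by gcongr
      _ = _ := by ring

/-- **A subspace in `(A + jA) + (A + jA)`.** -/
theorem mult (A : Finset G) (hA : A.Nonempty) (l : ℝ) (hl1 : 0.69 ≤ l)
    (hl : (Fintype.card G : ℝ) ≤ Real.exp l * A.card) (k : ℕ) (hk : 2 ≤ k) :
    ∃ (j : ℕ) (V : Submodule (ZMod 2) G) (r : ℕ), 1 ≤ j ∧ j + 1 ≤ k ∧
      (r : ℝ) ≤ 10 ^ 27 * ((1 + l / k) * l * min (1 + l / k) (Real.log (2 + l / k) ^ 3 * Real.log (2 + l))) ∧
      Fintype.card G ≤ 2 ^ r * Nat.card V ∧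
      ∀ v ∈ V, ∃ w₁ ∈ A + j • A, ∃ w₂ ∈ A + j • A, v = w₁ + w₂ := by
  classical
  have hApos : (0 : ℝ) < A.card := by exact_mod_cast hA.card_pos
  have hNpos : (0 : ℝ) < Fintype.card G := by
    have : Nonempty G := ⟨0⟩
    exact_mod_cast Fintype.card_pos
  have hk2 : (2 : ℝ) ≤ k := by exact_mod_cast hk
  obtain ⟨j, hj1, hjk, hj⟩ := exists_mult A hA l hl k hk
  obtain ⟨p, hp⟩ : ∃ p : ℝ, p = l / (k - 1) := ⟨_, rfl⟩
  rw [← hp] at hj
  have hp0 : 0 ≤ p := by
    rw [hp]
    apply div_nonneg <;> linarith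
  have hpl : p ≤ l := by
    rw [hp]
    apply div_le_self (by linarith)
    linarith
  obtain ⟨y, hy⟩ : ∃ y : ℝ, y = l / k := ⟨_, rfl⟩
  rw [← hy]
  have hy0 : 0 ≤ y := by rw [hy]; positivity
  have h3 : p ≤ 2 * y := by
    rw [hp, hy, mul_div_assoc', div_le_div_iff₀ (by linarith) (by linarith)]
    nlinarith
  obtain ⟨n1, n2⟩ := numbers l y p hl1 hy0 hp0 h3 hpl
  have huniv : ∀ Z : Finset G, (Z.card : ℝ) ≤ Real.exp l * A.card := by
    intro Z
    refine le_trans ?_ hl
    exact_mod_cast Finset.card_le_univ Z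
  have hann : ∀ Λ : Finset (AddChar G ℂ), Fintype.card G ≤ 2 ^ Λ.card * Nat.card (ann Λ) := by
    intro Λ
    have h4 := card_ann Λ
    have h5 : (univ.filter fun x : G => x ∈ ann Λ).card = Nat.card (ann Λ) := by
      rw [Nat.card_eq_fintype_card, Fintype.card_subtype]
    rw [← h5, mul_comm]
    convert h4
  have g2 : 0 ≤ Real.log (2 + y) := Real.log_nonneg (by linarith)
  have g3 : 0 ≤ Real.log (2 + l) := Real.log_nonneg (by linarith)
  rcases le_total (1 + y) (Real.log (2 + y) ^ 3 * Real.log (2 + l)) with hc | hc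
  · -- moments
    have hall : ∀ Z : Finset G, Z.Nonempty → Real.log Z.card ≤ Real.log A.card + l := by
      intro Z hZ
      have hZpos : (0 : ℝ) < Z.card := by exact_mod_cast hZ.card_pos
      have := Real.log_le_log hZpos (huniv Z)
      rw [Real.log_mul (Real.exp_pos _).ne' hApos.ne', Real.log_exp] at this
      linarith
    have e0 : A - (-(j • A)) = A + j • A := by rw [sub_neg_eq_add]
    have hne : (A - (-(j • A))).Nonempty := by rw [e0]; exact hA.add hA.nsmul
    obtain ⟨Λ, q1, q2⟩ := Pool.Agent.H89.EN.main A (-(j • A)) univ hA hA.nsmul.neg ⟨0, mem_univ _⟩ p l hp0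
      (by linarith) (by rw [e0, card_neg]; exact hj) (hall _ (hA.add ⟨0, mem_univ _⟩))
      (fun i _ => hall _ (hA.add ((hne.sub hne).nsmul)))
    rw [card_univ, div_self hNpos.ne', Real.log_one, zero_add] at q1
    refine ⟨j, ann Λ, Λ.card, hj1, hjk, ?_, hann Λ, ?_⟩
    · rw [min_eq_left hc]
      refine q1.trans ?_
      calc 8 * (2 * 10 ^ 7 * ((1 + p) ^ 2 * (1 + l))) ≤ 8 * (2 * 10 ^ 7 * (10 * ((1 + y) * l * (1 + y)))) := by gcongr
        _ = (16 * 10 ^ 8) * ((1 + y) * l * (1 + y)) := by ring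
        _ ≤ 10 ^ 27 * ((1 + y) * l * (1 + y)) := by
            apply mul_le_mul_of_nonneg_right (by norm_num)
            positivity
    · intro v hv
      obtain ⟨w₁, h1, w₂, h2, h3⟩ := q2 v (fun ψ hψ => by
        rw [hv ψ hψ, sub_self, norm_zero]
        positivity)
      rw [e0] at h1 h2
      exact ⟨w₁, h1, w₂, h2, by rw [h3, sub_add2]⟩
  · -- level sets
    obtain ⟨Λ, q1, q2, -⟩ := three_group A (j • A) univ hA hA.nsmul ⟨0, mem_univ _⟩ (1 / 5) (by norm_num) (by norm_num)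
      p l 0 hp0 (by linarith) (by rw [card_univ, div_self hNpos.ne', Real.log_one]) hj (huniv _) (huniv _)
    refine ⟨j, ann Λ, Λ.card, hj1, hjk, ?_, hann Λ, ?_⟩
    · rw [min_eq_right hc]
      refine q1.trans ?_
      rw [zero_add]
      calc 10 ^ 17 / (1 / 5) ^ 8 * ((1 + p) * (1 + p + l) * (Real.log (2 + p) ^ 3 * Real.log (2 + p + l + 0))) ≤
          10 ^ 17 / (1 / 5) ^ 8 * (112 * ((1 + y) * l * (Real.log (2 + y) ^ 3 * Real.log (2 + l)))) := by gcongr
        _ = (10 ^ 17 / (1 / 5) ^ 8 * 112) * ((1 + y) * l * (Real.log (2 + y) ^ 3 * Real.log (2 + l))) := by ring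
        _ ≤ 10 ^ 27 * ((1 + y) * l * (Real.log (2 + y) ^ 3 * Real.log (2 + l))) := by
            apply mul_le_mul_of_nonneg_right (by norm_num)
            positivity
    · intro v hv
      obtain ⟨w₁, h1, w₂, h2, h3⟩ := q2 v hv
      exact ⟨w₁, h1, w₂, h2, by rw [h3, sub_add2]⟩

end Pool.Agent.H89.F2
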