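import Pool.Agent.H89.LV.ThreeG

/-!
# Subspaces over the field with two elements
-/

set_option autoImplicit false
set_option linter.unusedSectionVars false
set_option linter.unusedVariables false

namespace Pool.Agent.H89.F2

open Finset Pool.Agent.K4H60.BZ Pool.Agent.H89.EN Pool.Agent.H89.LV
open scoped Pointwise BigOperators ComplexConjugate

variable {G : Type*} [AddCommGroup G] [Module (ZMod 2) G] [Fintype G] [DecidableEq G]

theorem add_self2 (x : G) : x + x = 0 := by
  have h : (2 : ZMod 2) • x = x + x := two_smul _ x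
  have h2 : (2 : ZMod 2) = 0 := by decide
  rw [← h, h2, zero_smul]

theorem neg_self2 (x : G) : -x = x := neg_eq_of_add_eq_zero_left (add_self2 x)

theorem sub_add2 (x y : G) : x - y = x + y := by rw [sub_eq_add_neg, neg_self2]

theorem char_sq (ψ : AddChar G ℂ) (x : G) : ψ x = 1 ∨ ψ x = -1 := by
  have h : ψ x * ψ x = 1 := by
    rw [← AddChar.map_add_eq_mul, add_self2, AddChar.map_zero_eq_one]
  exact mul_self_eq_one_iff.1 h

/-- the annihilator of `Λ` -/
def ann (Λ : Finset (AddChar G ℂ)) : Submodule (ZMod 2) G where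
  carrier := {x | ∀ ψ ∈ Λ, ψ x = 1}
  add_mem' := by
    intro x y hx hy ψ hψ
    rw [AddChar.map_add_eq_mul, hx ψ hψ, hy ψ hψ, one_mul]
  zero_mem' := by
    intro ψ _
    exact AddChar.map_zero_eq_one ψ
  smul_mem' := by
    intro c x hx ψ hψ
    have hc : c = 0 ∨ c = 1 := by
      revert c
      decide
    rcases hc with h | h
    · rw [h, zero_smul, AddChar.map_zero_eq_one]
    · rw [h, one_smul, hx ψ hψ]

theorem mem_ann (Λ : Finset (AddChar G ℂ)) (x : G) : x ∈ ann Λ ↔ ∀ ψ ∈ Λ, ψ x = 1 := Iff.rfl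

open Classical in
/-- the annihilator is large -/
theorem card_ann (Λ : Finset (AddChar G ℂ)) :
    Fintype.card G ≤ (univ.filter fun x : G => x ∈ ann Λ).card * 2 ^ Λ.card := by
  have h1 := Finset.card_le_mul_card_image (f := fun x : G => fun ψ : Λ => decide (ψ.1 x = 1)) (s := univ)
    (univ.filter fun x : G => x ∈ ann Λ).card (by
      intro b hb
      rw [mem_image] at hb
      obtain ⟨y, -, hy⟩ := hb
      refine card_le_card_of_injOn (fun x => x - y) ?_ ?_
      · intro x hx
        rw [mem_coe, mem_filter] at hx ⊢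
        refine ⟨mem_univ _, ?_⟩
        rw [mem_ann]
        intro ψ hψ
        have h2 : decide (ψ x = 1) = decide (ψ y = 1) := by
          have := congrFun (hx.2.trans hy.symm) ⟨ψ, hψ⟩
          exact this
        rw [decide_eq_decide] at h2
        show ψ (x - y) = 1
        rw [sub_add2, AddChar.map_add_eq_mul]
        rcases char_sq ψ x with h3 | h3 <;> rcases char_sq ψ y with h4 | h4
        · rw [h3, h4, one_mul]
        · have h5 := h2.1 h3
          rw [h5, h3, one_mul]
        · have h5 := h2.2 h4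
          rw [h5, h4, one_mul]
        · rw [h3, h4]
          norm_num
      · intro x _ x' _ hxx
        exact sub_left_injective hxx)
  have h2 : (univ.image fun x : G => fun ψ : Λ => decide (ψ.1 x = 1)).card ≤ 2 ^ Λ.card := by
    refine (card_le_univ _).trans ?_
    rw [Fintype.card_fun, Fintype.card_bool, Fintype.card_coe]
  rw [card_univ] at h1
  exact h1.trans (Nat.mul_le_mul_left _ h2)

/-- **Dense sets in a group of exponent two.** -/
theorem dense (A : Finset G) (hA : A.Nonempty) (η : ℝ) (hη : 0 < η) (hη1 : η < 1 / 4) (l : ℝ) (hl0 : 0 ≤ l)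
    (hl : (Fintype.card G : ℝ) ≤ Real.exp l * A.card) :
    ∃ (V : Submodule (ZMod 2) G) (r : ℕ), (r : ℝ) ≤ 10 ^ 18 / η ^ 8 * ((1 + l) ^ 2 * Real.log (2 + l) ^ 4) ∧
      Fintype.card G ≤ 2 ^ r * Nat.card V ∧
      (∀ v ∈ V, ∃ a ∈ A, ∃ b ∈ A, ∃ c ∈ A, ∃ d ∈ A, v = a + b + c + d) ∧
      ∃ t : G, (1 - 5 * η) * (Nat.card V : ℝ) ≤ (Nat.card {v : V // t + v ∈ A + A} : ℝ) := by
  classical
  have huniv : ∀ Z : Finset G, (Z.card : ℝ) ≤ Real.exp l * A.card := by
    intro Z
    refine le_trans ?_ hl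
    exact_mod_cast Finset.card_le_univ Z
  have hGpos : (0 : ℝ) < Fintype.card G := by
    have : Nonempty G := ⟨0⟩
    exact_mod_cast Fintype.card_pos
  obtain ⟨Λ, h1, h2, h3⟩ := three_group A A univ hA hA ⟨0, mem_univ _⟩ η hη hη1 l l 0 hl0 hl0
    (by rw [card_univ, div_self hGpos.ne', Real.log_one]) (huniv _) (huniv _) (huniv _)
  refine ⟨ann Λ, Λ.card, ?_, ?_, ?_, ?_⟩
  · refine h1.trans ?_
    have g1 : 0 ≤ Real.log (2 + l) := Real.log_nonneg (by linarith)
    have g2 : Real.log (2 + l + l) ≤ 2 * Real.log (2 + l) := by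
      have k1 : 2 + l + l ≤ (2 + l) ^ 2 := by nlinarith
      have k2 := Real.log_le_log (by linarith) k1
      rw [Real.log_pow] at k2
      exact_mod_cast k2
    have g3 : 0 ≤ Real.log (2 + l + l) := Real.log_nonneg (by linarith)
    rw [zero_add, add_zero]
    calc 10 ^ 17 / η ^ 8 * ((1 + l) * (1 + l + l) * (Real.log (2 + l) ^ 3 * Real.log (2 + l + l))) ≤
        10 ^ 17 / η ^ 8 * ((1 + l) * (2 * (1 + l)) * (Real.log (2 + l) ^ 3 * (2 * Real.log (2 + l)))) := by
          gcongr
          linarith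
      _ = 4 * (1 / η ^ 8 * 10 ^ 17 * ((1 + l) ^ 2 * Real.log (2 + l) ^ 4)) := by ring
      _ ≤ 10 * (1 / η ^ 8 * 10 ^ 17 * ((1 + l) ^ 2 * Real.log (2 + l) ^ 4)) := by
          apply mul_le_mul_of_nonneg_right (by norm_num)
          positivity
      _ = _ := by ring
  · have h4 := card_ann Λ
    have h5 : (univ.filter fun x : G => x ∈ ann Λ).card = Nat.card (ann Λ) := by
      rw [Nat.card_eq_fintype_card, Fintype.card_subtype]
    rw [← h5, mul_comm]
    convert h4
  · intro v hv
    obtain ⟨w₁, hw₁, w₂, hw₂, h4⟩ := h2 v hv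
    obtain ⟨a, ha, b, hb, rfl⟩ := mem_add.1 hw₁
    obtain ⟨c, hc, d, hd, rfl⟩ := mem_add.1 hw₂
    refine ⟨a, ha, b, hb, c, hc, d, hd, ?_⟩
    rw [h4, sub_add2, add_assoc (a + b) c d]
  · obtain ⟨t, ht⟩ := h3 (univ.filter fun x => x ∈ ann Λ) ⟨0, by
      rw [mem_filter]
      exact ⟨mem_univ _, (ann Λ).zero_mem⟩⟩ (fun x hx => (mem_filter.1 hx).2)
    refine ⟨t, ?_⟩
    have e1 : (Nat.card (ann Λ) : ℝ) = (univ.filter fun x => x ∈ ann Λ).card := by
      rw [Nat.card_eq_fintype_card, Fintype.card_subtype]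
    have e2 : (Nat.card {v : ann Λ // t + v ∈ A + A} : ℝ) =
        ((univ.filter fun x => x ∈ ann Λ).filter fun x => t + x ∈ A + A).card := by
      congr 1
      rw [← Fintype.card_coe, Nat.card_eq_fintype_card]
      refine Fintype.card_congr ?_
      refine ⟨fun v => ⟨v.1.1, ?_⟩, fun v => ⟨⟨v.1, ?_⟩, ?_⟩, ?_, ?_⟩
      · rw [mem_filter, mem_filter]
        exact ⟨⟨mem_univ _, v.1.2⟩, v.2⟩
      · exact (mem_filter.1 (mem_filter.1 v.2).1).2
      · exact (mem_filter.1 v.2).2
      · intro v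
        rfl
      · intro v
        rfl
    rw [e1, e2]
    exact ht

end Pool.Agent.H89.F2
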